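import Mathlib
import Pool.Agent.H691R3.Class
import Pool.Agent.H691R3.PrimeSum

/-!
# Weights of blocks (after `Pool.Agent.H691R3.Data` and `Pool.Agent.H691R3.Main`)

The definitions and the summability of the weights are those of the library files named above,
which cannot be imported together with `Pool.Agent.Y728.AK.Final`.
-/

set_option autoImplicit false
set_option linter.unusedSectionVars false

namespace Pool.Agent.V8H4.TL

open NumberField IsDedekindDomain Finset Pool.Agent.H691R3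

variable {K : Type*} [Field K] [NumberField K]

/-- weight of a block -/
noncomputable def wt {q : ℕ} (a : Pl K × Fin q × ℕ) : ℝ := (a.2.2 : ℝ) * Lu a.1

open Classical in
/-- cost of a block -/
noncomputable def cost (Sp : Finset (Pl K)) {q : ℕ} (a : Pl K × Fin q × ℕ) : ℝ :=
  if a.1 ∈ Sp then 0 else Lu a.1

open Classical in
/-- threshold for the multiplicity -/
noncomputable def thr (Sp : Finset (Pl K)) (v : Pl K) : ℕ := if v ∈ Sp then 1 else 2

lemma lam_le_lev (v : Pl K) (t : ℝ) : t ≤ (⌊t / Lu v⌋₊ : ℝ) * Lu v + Lu v := by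
  have h1 := (Nat.lt_floor_add_one (t / Lu v)).le
  have h2 := mul_le_mul_of_nonneg_right h1 (Lu_pos v).le
  rw [div_mul_cancel₀ _ (Lu_pos v).ne'] at h2
  linarith

lemma lev_le_lam (v : Pl K) (t : ℝ) (h : 1 ≤ ⌊t / Lu v⌋₊) : (⌊t / Lu v⌋₊ : ℝ) * Lu v ≤ t := by
  have h0 : 0 ≤ t / Lu v := by
    by_contra hcon
    rw [not_le] at hcon
    rw [Nat.floor_of_nonpos hcon.le] at h
    omega
  have h1 := Nat.floor_le h0
  have h2 := mul_le_mul_of_nonneg_right h1 (Lu_pos v).le
  rwa [div_mul_cancel₀ _ (Lu_pos v).ne'] at h2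

lemma log_two_le_Lu (v : Pl K) : Real.log 2 ≤ Lu v := by
  rcases v with w | v
  · unfold Lu
    simp only [Sum.elim_inl]
    have := Real.log_le_sub_one_of_pos (x := 2) (by norm_num)
    linarith
  · exact log_two_le_log_Nv v

/-- majorant of the weights -/
noncomputable def gmaj (η : ℝ) (v : Pl K) : ℝ :=
  Real.exp (2 * η * Real.log 2) * Real.exp (-(1 + 2 * η) * Lu v)

lemma gmaj_summable {η : ℝ} (hη : 0 < η) : Summable (gmaj (K := K) η) := by
  unfold gmaj
  refine Summable.mul_left _ ?_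
  have h1 := nm_summable (K := K) (x := 1 + 2 * η) (by linarith)
  refine summable_of_sum_le (c := (Fintype.card (InfinitePlace K) : ℝ) +
    ∑' v : HeightOneSpectrum (𝓞 K), (nm v : ℝ) ^ (-(1 + 2 * η)))
    (fun v => (Real.exp_pos _).le) fun s => ?_
  rw [← Finset.toLeft_disjSum_toRight (u := s), Finset.sum_disjSum]
  refine add_le_add ?_ ?_
  · calc ∑ w ∈ s.toLeft, Real.exp (-(1 + 2 * η) * Lu (Sum.inl w : Pl K))
        ≤ ∑ w ∈ s.toLeft, (1 : ℝ) := by
          refine Finset.sum_le_sum fun w _ => ?_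
          refine Real.exp_le_one_iff.mpr ?_
          have := Lu_pos (Sum.inl w : Pl K)
          nlinarith [mul_pos hη this]
      _ ≤ (Fintype.card (InfinitePlace K) : ℝ) := by
          rw [Finset.sum_const, nsmul_eq_mul, mul_one]
          exact_mod_cast Finset.card_le_univ _
  · calc ∑ v ∈ s.toRight, Real.exp (-(1 + 2 * η) * Lu (Sum.inr v : Pl K))
        = ∑ v ∈ s.toRight, (nm v : ℝ) ^ (-(1 + 2 * η)) := by
          refine Finset.sum_congr rfl fun v _ => ?_
          have h2 : (0 : ℝ) < nm v := by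
            have := two_le_nm v
            exact_mod_cast (by omega : 0 < nm v)
          rw [Real.rpow_def_of_pos h2, mul_comm]
          rfl
      _ ≤ _ := h1.sum_le_tsum _ (fun v _ => by positivity)

open Classical in
/-- the weight -/
noncomputable def fwt (Sp : Finset (Pl K)) (η : ℝ) {q : ℕ} (a : Pl K × Fin q × ℕ) : ℝ :=
  if thr Sp a.1 ≤ a.2.2 then Real.exp (-(cost Sp a) - η * wt a) else 0

lemma fwt_nonneg (Sp : Finset (Pl K)) (η : ℝ) {q : ℕ} (a : Pl K × Fin q × ℕ) :
    0 ≤ fwt Sp η a := by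
  unfold fwt
  split_ifs
  · exact (Real.exp_pos _).le
  · exact le_rfl

lemma weights_bounded (Sp : Finset (Pl K)) (q : ℕ) {η : ℝ} (hη : 0 < η) :
    ∃ F0 : ℝ, ∀ s : Finset (Pl K × Fin q × ℕ), ∑ a ∈ s, fwt Sp η a ≤ F0 := by
  classical
  set ρ : ℝ := Real.exp (-(η * Real.log 2)) with hρ
  have hlog : 0 < Real.log 2 := Real.log_pos (by norm_num)
  have hρ0 : 0 ≤ ρ := (Real.exp_pos _).le
  have hρ1 : ρ < 1 := by
    rw [hρ, Real.exp_lt_one_iff]
    have := mul_pos hη hlog
    linarith
  set G : Pl K → ℝ := fun v => (if v ∈ Sp then 1 else 0) + gmaj η v with hG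
  have hG0 : ∀ v, 0 ≤ G v := by
    intro v
    rw [hG]
    simp only
    have h1 : 0 ≤ gmaj η v := by unfold gmaj; positivity
    split_ifs <;> linarith
  have hGs : Summable G := by
    refine Summable.add ?_ (gmaj_summable hη)
    refine summable_of_ne_finset_zero (s := Sp) fun v hv => ?_
    rw [if_neg hv]
  have hH : Summable (fun b : Fin q × ℕ => (1 : ℝ) * ρ ^ b.2) := by
    refine Summable.mul_of_nonneg (f := fun _ : Fin q => (1 : ℝ)) (g := fun n : ℕ => ρ ^ n)
      (Summable.of_finite) (summable_geometric_of_lt_one hρ0 hρ1) (fun _ => zero_le_one)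
      (fun n => pow_nonneg hρ0 n)
  have hGH : Summable (fun a : Pl K × Fin q × ℕ => G a.1 * (1 * ρ ^ a.2.2)) :=
    Summable.mul_of_nonneg (f := G) (g := fun b : Fin q × ℕ => (1 : ℝ) * ρ ^ b.2) hGs hH
      (fun v => hG0 v) (fun b => mul_nonneg zero_le_one (pow_nonneg hρ0 _))
  refine ⟨∑' a : Pl K × Fin q × ℕ, G a.1 * (1 * ρ ^ a.2.2), fun s => ?_⟩
  have hle : ∀ a : Pl K × Fin q × ℕ, fwt Sp η a ≤ G a.1 * (1 * ρ ^ a.2.2) := by
    intro a
    have hnn : 0 ≤ G a.1 * (1 * ρ ^ a.2.2) :=
      mul_nonneg (hG0 _) (mul_nonneg zero_le_one (pow_nonneg hρ0 _))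
    unfold fwt
    split_ifs with hthr
    · have hLu := log_two_le_Lu a.1
      have hpow : ρ ^ a.2.2 = Real.exp (-(a.2.2 * (η * Real.log 2))) := by
        rw [hρ, ← Real.exp_nat_mul]
        congr 1
        ring
      have hm0 : (0 : ℝ) ≤ a.2.2 := Nat.cast_nonneg _
      by_cases hv : a.1 ∈ Sp
      · have h1 : 1 ≤ G a.1 := by
          rw [hG]
          simp only [if_pos hv]
          have h1 : 0 ≤ gmaj η a.1 := by unfold gmaj; positivity
          linarith
        have h2 : Real.exp (-(cost Sp a) - η * wt a) ≤ 1 * ρ ^ a.2.2 := by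
          rw [one_mul, hpow]
          refine Real.exp_le_exp.mpr ?_
          have h3 : cost Sp a = 0 := by unfold cost; rw [if_pos hv]
          rw [h3]
          unfold wt
          have h4 : (a.2.2 : ℝ) * (η * Real.log 2) ≤ a.2.2 * (η * Lu a.1) :=
            mul_le_mul_of_nonneg_left (mul_le_mul_of_nonneg_left hLu hη.le) hm0
          linarith
        calc Real.exp (-(cost Sp a) - η * wt a) ≤ 1 * ρ ^ a.2.2 := h2
          _ = 1 * (1 * ρ ^ a.2.2) := by ring
          _ ≤ G a.1 * (1 * ρ ^ a.2.2) :=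
            mul_le_mul_of_nonneg_right h1 (mul_nonneg zero_le_one (pow_nonneg hρ0 _))
      · have h1 : gmaj η a.1 ≤ G a.1 := by
          rw [hG]
          simp only [if_neg hv, zero_add, le_refl]
        have h2 : Real.exp (-(cost Sp a) - η * wt a) ≤ gmaj η a.1 * (1 * ρ ^ a.2.2) := by
          unfold gmaj
          rw [one_mul, hpow, ← Real.exp_add, ← Real.exp_add]
          refine Real.exp_le_exp.mpr ?_
          have h3 : cost Sp a = Lu a.1 := by unfold cost; rw [if_neg hv]
          rw [h3]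
          unfold wt
          have h5 : (2 : ℝ) ≤ a.2.2 := by
            have : thr Sp a.1 = 2 := by unfold thr; rw [if_neg hv]
            rw [this] at hthr
            exact_mod_cast hthr
          have h4 : 0 ≤ ((a.2.2 : ℝ) - 2) * (η * (Lu a.1 - Real.log 2)) :=
            mul_nonneg (by linarith) (mul_nonneg hη.le (by linarith))
          nlinarith
        exact h2.trans (mul_le_mul_of_nonneg_right h1
          (mul_nonneg zero_le_one (pow_nonneg hρ0 _)))
    · exact hnn
  calc ∑ a ∈ s, fwt Sp η a ≤ ∑ a ∈ s, G a.1 * (1 * ρ ^ a.2.2) :=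
        Finset.sum_le_sum fun a _ => hle a
    _ ≤ _ := hGH.sum_le_tsum _ (fun a _ =>
        mul_nonneg (hG0 _) (mul_nonneg zero_le_one (pow_nonneg hρ0 _)))

end Pool.Agent.V8H4.TL
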