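import Mathlib
import Pool.Agent.V8H4.TL.Wts
import Pool.Agent.TH876.KR.Def

/-!
# The blocks of a point and the excess of the height over a third of the radical
-/

set_option autoImplicit false
set_option linter.unusedSectionVars false

namespace Pool.Agent.V8H4.TL

open NumberField IsDedekindDomain Finset Pool.Agent.H691R3 Pool.Agent.TH876.Loc
open Pool.Agent.TH876.KR (side rr df_inr fv_pos side_uniq df_eq_zero mem_side mem_sp_iff gd_eq
  df_int log_Nv_pos' log_nn)

variable {K : Type} [Field K] [NumberField K]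

/-- the three points `0, ∞, -1` -/
def al (K : Type) [Field K] (i : Fin 3) : K × K := ![((0 : K), (1 : K)), (1, 0), (-1, 1)] i

theorem al_ne (i : Fin 3) : al K i ≠ 0 := by
  intro h
  fin_cases i
  · exact one_ne_zero (congrArg Prod.snd h)
  · exact one_ne_zero (congrArg Prod.fst h)
  · exact one_ne_zero (congrArg Prod.snd h)

theorem al_wedge (x : K) (i : Fin 3) : (aff x).1 * (al K i).2 - (aff x).2 * (al K i).1 = L i x ∨
    (aff x).1 * (al K i).2 - (aff x).2 * (al K i).1 = -L i x := by
  fin_cases i
  · left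
    show x * 1 - 1 * 0 = x
    ring
  · right
    show x * 0 - 1 * 1 = -1
    ring
  · right
    show x * 1 - 1 * (-1) = -(-x - 1)
    ring

theorem al_off {x : K} (hx : Pt x) (i : Fin 3) :
    (aff x).1 * (al K i).2 - (aff x).2 * (al K i).1 ≠ 0 := by
  rcases al_wedge x i with h | h
  · rw [h]; exact L_ne hx i
  · rw [h]; exact neg_ne_zero.2 (L_ne hx i)

theorem lamA_al (f : AbsoluteValue K ℝ) (x : K) (i : Fin 3) :
    lamA f (aff x) (al K i) = Real.log (max (f x) 1 / f (L i x)) := by
  unfold lamA
  have h1 : f ((aff x).1 * (al K i).2 - (aff x).2 * (al K i).1) = f (L i x) := by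
    rcases al_wedge x i with h | h
    · rw [h]
    · rw [h, f.map_neg]
  rw [h1]
  have h2 : max (f (al K i).1) (f (al K i).2) = 1 := by
    fin_cases i
    · show max (f 0) (f 1) = 1
      rw [map_zero, map_one]; norm_num
    · show max (f 1) (f 0) = 1
      rw [map_zero, map_one]; norm_num
    · show max (f (-1)) (f 1) = 1
      rw [f.map_neg, map_one]; norm_num
  have h3 : max (f (aff x).1) (f (aff x).2) = max (f x) 1 := by
    show max (f x) (f 1) = _
    rw [map_one]
  rw [h2, h3, mul_one]

theorem lam_al (v : Pl K) (x : K) (i : Fin 3) :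
    lam v (aff x) (al K i) = mt v * Real.log (max (av v x) 1 / av v (L i x)) := by
  rcases v with w | v
  · show (w.mult : ℝ) * lamA w.1 (aff x) (al K i) = _
    rw [lamA_al]
    rfl
  · show lamA (fv v) (aff x) (al K i) = _
    rw [lamA_al]
    show _ = 1 * _
    rw [one_mul]
    rfl

theorem max_le_M (v : Pl K) (x : K) : max (av v x) 1 ≤ M v x :=
  max_le (av_L_le v x 0) (one_le_M v x)

theorem M_le_max (v : Pl K) (x : K) : M v x ≤ cv v * max (av v x) 1 := by
  have hc := one_le_cv v
  have h0 : 0 < max (av v x) 1 := lt_max_of_lt_right one_pos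
  unfold M
  refine max_le ?_ (max_le ?_ ?_)
  · show av v x ≤ _
    have := le_max_left (av v x) 1
    nlinarith
  · show av v 1 ≤ _
    rw [map_one]
    have := le_max_right (av v x) 1
    nlinarith
  · show av v (-x - 1) ≤ _
    have : -x - 1 = -(x + 1) := by ring
    rw [this, (av v).map_neg]
    have h := av_add v x 1
    rwa [map_one] at h

theorem lam_le_df (v : Pl K) {x : K} (hx : Pt x) (i : Fin 3) :
    lam v (aff x) (al K i) ≤ df v i x := by
  have hL := (av v).pos (L_ne hx i)
  have h0 : 0 < max (av v x) 1 := lt_max_of_lt_right one_pos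
  rw [lam_al, Real.log_div h0.ne' hL.ne']
  unfold df mx lg
  rw [← mul_sub]
  refine mul_le_mul_of_nonneg_left ?_ (mt_pos v).le
  have := Real.log_le_log h0 (max_le_M v x)
  linarith

theorem df_le_lam (v : Pl K) {x : K} (hx : Pt x) (i : Fin 3) :
    df v i x ≤ lam v (aff x) (al K i) + mt v * Real.log (cv v) := by
  have hL := (av v).pos (L_ne hx i)
  have h0 : 0 < max (av v x) 1 := lt_max_of_lt_right one_pos
  have hc := one_le_cv v
  have hM := one_le_M v x
  rw [lam_al, Real.log_div h0.ne' hL.ne']
  unfold df mx lg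
  rw [← mul_sub, ← mul_add]
  refine mul_le_mul_of_nonneg_left ?_ (mt_pos v).le
  have := Real.log_le_log (by linarith) (M_le_max v x)
  rw [Real.log_mul (by linarith) h0.ne'] at this
  linarith

/-- at each place at most one of the three defects is large -/
theorem exists_near (v : Pl K) {x : K} (hx : Pt x) :
    ∃ i : Fin 3, ∀ j, j ≠ i → df v j x ≤ mt v * Real.log (cv v) := by
  obtain ⟨i, hi⟩ : ∃ i : Fin 3, ∀ j, av v (L i x) ≤ av v (L j x) :=
    Finite.exists_min fun i => av v (L i x)
  refine ⟨i, fun j hj => ?_⟩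
  obtain ⟨m, hm⟩ := M_attained v x
  have hc := one_le_cv v
  have hM := one_le_M v x
  have hLj := (av v).pos (L_ne hx j)
  have key : M v x ≤ cv v * av v (L j x) := by
    by_cases hmj : m = j
    · rw [hm, hmj]
      nlinarith
    by_cases hmi : m = i
    · rw [hm, hmi]
      have := hi j
      nlinarith
    · have hL : L m x = -(L i x + L j x) := by
        have h3 : ∀ f : Fin 3 → K, f 0 + f 1 + f 2 = f m + f i + f j := by
          intro f
          fin_cases m <;> fin_cases i <;> fin_cases j <;> simp at hmi hmj hj ⊢ <;> ring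
        have := h3 (fun i => L i x)
        linear_combination -this + L_sum x
      rw [hm, hL, (av v).map_neg]
      refine (av_add v _ _).trans (mul_le_mul_of_nonneg_left ?_ (by linarith))
      exact max_le (hi j) le_rfl
  unfold df mx lg
  rw [← mul_sub]
  refine mul_le_mul_of_nonneg_left ?_ (mt_pos v).le
  have := Real.log_le_log (by linarith) key
  rw [Real.log_mul (by linarith) hLj.ne'] at this
  linarith

open Classical in
/-- the logarithm of the radical of `x` without the primes of `T` -/
noncomputable def rT (T : Finset (Pr K)) (x : K) : ℝ := ∑ v ∈ sp x \ T, Real.log (Nv v)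

open Classical in
theorem rT_eq (T : Finset (Pr K)) (x : K) : rT T x = Real.log (nn (sp x \ T)) := by
  rw [log_nn]; rfl

theorem sum_Spl_union [DecidableEq (Pr K)] (T S : Finset (Pr K)) (g : Pl K → ℝ) :
    ∑ v ∈ Spl (S ∪ T), g v = ∑ v ∈ Spl T, g v + ∑ v ∈ S \ T, g (Sum.inr v) := by
  have h : ∑ v ∈ S ∪ T, g (Sum.inr v) = ∑ v ∈ S \ T, g (Sum.inr v) + ∑ v ∈ T, g (Sum.inr v) := by
    rw [← Finset.sdiff_union_self_eq_union, Finset.sum_union Finset.sdiff_disjoint]
  rw [sum_Spl, sum_Spl, h]
  ring

/-- the constant of a special place -/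
noncomputable def spc (v : Pl K) : ℝ := Lu v + 3 * (mt v * Real.log (cv v))

theorem spc_nonneg (v : Pl K) : 0 ≤ spc v := by
  unfold spc
  have h1 := Lu_pos v
  have h2 := (mt_pos v).le
  have h3 := Real.log_nonneg (one_le_cv v)
  have : 0 ≤ mt v * Real.log (cv v) := mul_nonneg h2 h3
  linarith

/-- **the blocks of a point** -/
theorem blocks (T : Finset (Pr K)) {x : K} (hx : Pt x) :
    ∃ B : Finset (Pl K × Fin 3 × ℕ),
        Set.InjOn (fun a : Pl K × Fin 3 × ℕ => a.1) B ∧
        (∀ a ∈ B, wt a ≤ lam a.1 (aff x) (al K a.2.1)) ∧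
        (∀ a ∈ B, thr (Spl T) a.1 ≤ a.2.2) ∧
        |(3 * hgt x - rT T x) - ∑ a ∈ B, (wt a - cost (Spl T) a)| ≤ ∑ v ∈ Spl T, spc v := by
  classical
  choose near hnear using fun v : Pl K => exists_near v hx
  obtain ⟨lev, hlev⟩ : ∃ lev : Pl K → ℕ,
      lev = fun v => ⌊lam v (aff x) (al K (near v)) / Lu v⌋₊ := ⟨_, rfl⟩
  obtain ⟨g, hg⟩ : ∃ g : Pl K → Pl K × Fin 3 × ℕ, g = fun v => (v, near v, lev v) := ⟨_, rfl⟩
  have hginj : Function.Injective g := fun a b hab => by
    rw [hg] at hab
    exact congrArg Prod.fst hab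
  obtain ⟨Q0, hQ0⟩ : ∃ Q0, Q0 = (Spl (sp x ∪ T)).filter (fun v => thr (Spl T) v ≤ lev v) :=
    ⟨_, rfl⟩
  have hthr : ∀ v : Pl K, 1 ≤ thr (Spl T) v := fun v => by unfold thr; split_ifs <;> omega
  have hwt : ∀ v ∈ Q0, wt (g v) ≤ lam v (aff x) (al K (near v)) := by
    intro v hv
    rw [hQ0, Finset.mem_filter] at hv
    have h1 : 1 ≤ ⌊lam v (aff x) (al K (near v)) / Lu v⌋₊ := by
      have := (hthr v).trans hv.2
      rwa [hlev] at this
    have := lev_le_lam v _ h1
    rw [hg]
    unfold wt
    simp only [hlev]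
    exact this
  refine ⟨Q0.image g, ?_, ?_, ?_, ?_⟩
  · intro a ha b hb hab
    rw [Finset.mem_coe, Finset.mem_image] at ha hb
    obtain ⟨v, _, rfl⟩ := ha
    obtain ⟨u, _, rfl⟩ := hb
    have : v = u := by
      rw [hg] at hab
      exact hab
    rw [this]
  · intro a ha
    rw [Finset.mem_image] at ha
    obtain ⟨v, hv, rfl⟩ := ha
    have := hwt v hv
    rw [hg] at this ⊢
    exact this
  · intro a ha
    rw [Finset.mem_image] at ha
    obtain ⟨v, hv, rfl⟩ := ha
    rw [hQ0] at hv
    have := (Finset.mem_filter.mp hv).2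
    rw [hg]
    exact this
  · -- the local comparison
    obtain ⟨h, hh⟩ : ∃ h : Pl K → ℝ, h = fun v =>
        if thr (Spl T) v ≤ lev v then wt (g v) - cost (Spl T) (g v) else 0 := ⟨_, rfl⟩
    have hspec : ∀ v ∈ Spl T, |gd v x - h v| ≤ spc v := by
      intro v hv
      have hthrv : thr (Spl T) v = 1 := by unfold thr; rw [if_pos hv]
      have hcostv : cost (Spl T) (g v) = 0 := by
        unfold cost; rw [hg]; simp only; rw [if_pos hv]
      have hLu := Lu_pos v
      have hml : 0 ≤ mt v * Real.log (cv v) :=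
        mul_nonneg (mt_pos v).le (Real.log_nonneg (one_le_cv v))
      have h1 : gd v x ≤ df v (near v) x + 2 * (mt v * Real.log (cv v)) := by
        unfold gd
        rw [← Finset.add_sum_erase _ _ (Finset.mem_univ (near v))]
        have h2 : ∑ j ∈ Finset.univ.erase (near v), df v j x ≤
            ∑ j ∈ Finset.univ.erase (near v), mt v * Real.log (cv v) :=
          Finset.sum_le_sum fun j hj => hnear v j (Finset.ne_of_mem_erase hj)
        rw [Finset.sum_const, Finset.card_erase_of_mem (Finset.mem_univ _), Finset.card_univ,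
          Fintype.card_fin, nsmul_eq_mul] at h2
        push_cast at h2
        linarith
      have h2 := df_le_gd v (near v) hx
      have h3 := lam_le_df v hx (near v)
      have h4 := df_le_lam v hx (near v)
      have h5 := lam_le_lev v (lam v (aff x) (al K (near v)))
      have hwg : wt (g v) = (⌊lam v (aff x) (al K (near v)) / Lu v⌋₊ : ℝ) * Lu v := by
        rw [hg]; unfold wt; simp only [hlev]
      have hgd := gd_nonneg v hx
      rw [hh]
      simp only
      rw [hthrv, hcostv]
      unfold spc
      split_ifs with h6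
      · have h7 := lev_le_lam v (lam v (aff x) (al K (near v))) (by rwa [hlev] at h6)
        rw [hwg, abs_le]
        constructor <;> linarith
      · have h7 : lev v = 0 := by omega
        rw [hlev] at h7
        simp only at h7
        rw [h7, Nat.cast_zero, zero_mul] at h5
        rw [abs_le]
        constructor <;> linarith
    have hord : ∀ v ∈ sp x \ T, gd (Sum.inr v : Pl K) x - Real.log (Nv v) = h (Sum.inr v) := by
      intro v hv
      rw [Finset.mem_sdiff] at hv
      obtain ⟨hvs, hvT⟩ := hv
      have hns : (Sum.inr v : Pl K) ∉ Spl T := by rwa [inr_mem_Spl]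
      have hc0 : mt (Sum.inr v : Pl K) * Real.log (cv (Sum.inr v : Pl K)) = 0 := by
        show 1 * Real.log 1 = 0
        rw [Real.log_one, mul_zero]
      obtain ⟨i, hi⟩ := (mem_sp_iff hx v).1 hvs
      have hni : near (Sum.inr v) = i := by
        by_contra hne
        have h1 := hnear (Sum.inr v) i (Ne.symm hne)
        rw [hc0] at h1
        have h2 := (mem_side hx).1 hi
        linarith
      have h3 := lam_le_df (Sum.inr v : Pl K) hx i
      have h4 := df_le_lam (Sum.inr v : Pl K) hx i
      rw [hc0, add_zero] at h4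
      have h5 : lam (Sum.inr v : Pl K) (aff x) (al K i) = df (Sum.inr v : Pl K) i x :=
        le_antisymm h3 h4
      obtain ⟨m, hm⟩ := df_int hx v i
      have hLp := Lu_pos (Sum.inr v : Pl K)
      have hLv : Lu (Sum.inr v : Pl K) = Real.log (Nv v) := rfl
      have hm1 : 1 ≤ m := by
        rcases Nat.eq_zero_or_pos m with h0 | h0
        · have h2 := (mem_side hx).1 hi
          rw [hm, h0, Nat.cast_zero, zero_mul] at h2
          exact absurd h2 (lt_irrefl _)
        · exact h0
      have hlevm : lev (Sum.inr v) = m := by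
        rw [hlev]
        simp only
        rw [hni, h5, hm, ← hLv, mul_div_cancel_right₀ _ hLp.ne', Nat.floor_natCast]
      have hthrv : thr (Spl T) (Sum.inr v) = 2 := by unfold thr; rw [if_neg hns]
      have hcostv : cost (Spl T) (g (Sum.inr v)) = Lu (Sum.inr v : Pl K) := by
        unfold cost; rw [hg]; simp only; rw [if_neg hns]
      have hwtg : wt (g (Sum.inr v)) = (m : ℝ) * Lu (Sum.inr v : Pl K) := by
        unfold wt
        rw [hg]
        simp only
        rw [hlevm]
      rw [gd_eq hx hi, hm, hh]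
      simp only
      rw [hthrv, hcostv, hlevm, hwtg, hLv]
      split_ifs with h6
      · rfl
      · have : m = 1 := by omega
        rw [this, Nat.cast_one, one_mul, sub_self]
    have hBsum : ∑ a ∈ Q0.image g, (wt a - cost (Spl T) a) = ∑ v ∈ Spl (sp x ∪ T), h v := by
      rw [Finset.sum_image (fun a _ b _ hab => hginj hab), hQ0, Finset.sum_filter, hh]
    have hsum : 3 * hgt x - rT T x = ∑ v ∈ Spl T, gd v x +
        ∑ v ∈ sp x \ T, (gd (Sum.inr v : Pl K) x - Real.log (Nv v)) := by
      have h1 := sum_gd hx (V := sp x ∪ T) Finset.subset_union_left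
      rw [sum_Spl_union] at h1
      rw [← h1, Finset.sum_sub_distrib]
      unfold rT
      ring
    rw [hBsum, sum_Spl_union, hsum, Finset.sum_congr rfl hord]
    have e : ∑ v ∈ Spl T, gd v x + ∑ v ∈ sp x \ T, h (Sum.inr v) -
        (∑ v ∈ Spl T, h v + ∑ v ∈ sp x \ T, h (Sum.inr v)) = ∑ v ∈ Spl T, (gd v x - h v) := by
      rw [Finset.sum_sub_distrib]; ring
    rw [e]
    exact (Finset.abs_sum_le_sum_abs _ _).trans (Finset.sum_le_sum hspec)

end Pool.Agent.V8H4.TL
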