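import Mathlib
import Pool.Agent.H691R3.Class

/-!
# Many pairs of integers with one small quotient
-/

set_option autoImplicit false
set_option linter.unusedSectionVars false

namespace Pool.Agent.V8H4.TL

open NumberField IsDedekindDomain Finset Pool.Agent.H691R3

section
variable (K : Type) [Field K] [NumberField K]

/-- the index type of an integral basis -/
abbrev Ix : Type := Module.Free.ChooseBasisIndex ℤ (𝓞 K)

theorem card_Ix : Fintype.card (Ix K) = Module.finrank ℚ K := by
  rw [← RingOfIntegers.rank, Module.finrank_eq_card_basis (RingOfIntegers.basis K)]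

/-- the integer with given coordinates -/
noncomputable def elt (f : Ix K → ℤ) : 𝓞 K := ∑ i, f i • RingOfIntegers.basis K i

theorem elt_inj : Function.Injective (elt K) := by
  intro f g h
  have h1 : (RingOfIntegers.basis K).equivFun.symm f = (RingOfIntegers.basis K).equivFun.symm g := by
    rw [Module.Basis.equivFun_symm_apply, Module.Basis.equivFun_symm_apply]
    exact h
  exact (RingOfIntegers.basis K).equivFun.symm.injective h1

/-- the constant -/
noncomputable def cb : ℝ :=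
  1 + ∑ w : InfinitePlace K, ∑ i, w ((RingOfIntegers.basis K i : 𝓞 K) : K)

theorem one_le_cb : 1 ≤ cb K := by
  unfold cb
  have : 0 ≤ ∑ w : InfinitePlace K, ∑ i, w ((RingOfIntegers.basis K i : 𝓞 K) : K) :=
    Finset.sum_nonneg fun w _ => Finset.sum_nonneg fun i _ => apply_nonneg _ _
  linarith

variable {K} in
theorem w_int (w : InfinitePlace K) (n : ℤ) : w (n : K) = |(n : ℝ)| := by
  rw [← InfinitePlace.norm_embedding_eq, map_intCast, Complex.norm_intCast]

theorem elt_le {f : Ix K → ℤ} {n : ℕ} (h : ∀ i, 1 ≤ f i ∧ f i ≤ n) (w : InfinitePlace K) :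
    w ((elt K f : 𝓞 K) : K) ≤ cb K * n := by
  have e : ((elt K f : 𝓞 K) : K) = ∑ i, ((f i : ℤ) : K) * ((RingOfIntegers.basis K i : 𝓞 K) : K) := by
    unfold elt
    show algebraMap (𝓞 K) K _ = _
    rw [map_sum]
    refine Finset.sum_congr rfl fun i _ => ?_
    rw [zsmul_eq_mul, map_mul, map_intCast]
  rw [e]
  have h0 : w (∑ i, ((f i : ℤ) : K) * ((RingOfIntegers.basis K i : 𝓞 K) : K)) ≤
      ∑ i, w (((f i : ℤ) : K) * ((RingOfIntegers.basis K i : 𝓞 K) : K)) := w.1.sum_le _ _
  refine h0.trans ?_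
  have h1 : ∑ i, w ((RingOfIntegers.basis K i : 𝓞 K) : K) ≤ cb K := by
    unfold cb
    have := Finset.single_le_sum
      (f := fun w : InfinitePlace K => ∑ i, w ((RingOfIntegers.basis K i : 𝓞 K) : K))
      (fun w _ => Finset.sum_nonneg fun i _ => apply_nonneg _ _) (Finset.mem_univ w)
    linarith
  refine le_trans ?_ (mul_le_mul_of_nonneg_right h1 (Nat.cast_nonneg n))
  rw [Finset.sum_mul]
  refine Finset.sum_le_sum fun i _ => ?_
  rw [map_mul, mul_comm, w_int]
  refine mul_le_mul_of_nonneg_left ?_ (apply_nonneg _ _)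
  have h2 := h i
  have h3 : |f i| ≤ (n : ℤ) := by rw [abs_le]; constructor <;> omega
  exact_mod_cast h3

/-- the box -/
noncomputable def box (n : ℕ) : Finset (𝓞 K) :=
  (Fintype.piFinset fun _ : Ix K => Finset.Icc (1 : ℤ) n).map ⟨elt K, elt_inj K⟩

theorem card_box (n : ℕ) : (box K n).card = n ^ Module.finrank ℚ K := by
  unfold box
  rw [Finset.card_map, Fintype.card_piFinset, Finset.prod_const, Finset.card_univ, card_Ix,
    Int.card_Icc]
  congr 1
  omega

theorem box_le {n : ℕ} {a : 𝓞 K} (h : a ∈ box K n) (w : InfinitePlace K) :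
    w (a : K) ≤ cb K * n := by
  obtain ⟨f, hf, rfl⟩ := Finset.mem_map.1 h
  rw [Fintype.mem_piFinset] at hf
  exact elt_le K (fun i => Finset.mem_Icc.1 (hf i)) w

end

/-- a maximal separated subset, and a large class -/
theorem large_class {ι : Type*} [DecidableEq ι] (B : Finset ι) (dist : ι → ι → ℝ) (ρ N : ℝ)
    (hN : 0 < N) (hself : ∀ x, dist x x < ρ) (hB : B.Nonempty)
    (hsep : ∀ S ⊆ B, (∀ x ∈ S, ∀ y ∈ S, x ≠ y → ρ ≤ dist x y) → (S.card : ℝ) ≤ N)
    (hsymm : ∀ x y, dist x y = dist y x) :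
    ∃ s ∈ B, (B.card : ℝ) / N ≤ ((B.filter fun x => dist x s < ρ).card : ℝ) := by
  classical
  obtain ⟨P, hP⟩ : ∃ P : Finset ι → Prop, P = fun S => ∀ x ∈ S, ∀ y ∈ S, x ≠ y → ρ ≤ dist x y :=
    ⟨_, rfl⟩
  obtain ⟨𝒮, h𝒮⟩ : ∃ 𝒮, 𝒮 = B.powerset.filter P := ⟨_, rfl⟩
  have hne : 𝒮.Nonempty := ⟨∅, by
    rw [h𝒮, Finset.mem_filter, hP]
    exact ⟨Finset.mem_powerset.2 (Finset.empty_subset _), fun x hx => absurd hx (by simp)⟩⟩
  obtain ⟨S, hS, hmax⟩ := Finset.exists_max_image 𝒮 Finset.card hne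
  rw [h𝒮, Finset.mem_filter, Finset.mem_powerset] at hS
  obtain ⟨hSB, hSs⟩ := hS
  rw [hP] at hSs
  have hcov : ∀ x ∈ B, ∃ s ∈ S, dist x s < ρ := by
    intro x hx
    by_contra hcon
    push Not at hcon
    have hxS : x ∉ S := fun h => absurd (hcon x h) (not_le.2 (hself x))
    have hmem : insert x S ∈ 𝒮 := by
      rw [h𝒮, Finset.mem_filter, Finset.mem_powerset, hP]
      refine ⟨Finset.insert_subset hx hSB, ?_⟩
      intro y hy z hz hyz
      rw [Finset.mem_insert] at hy hz
      rcases hy with rfl | hy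
      · rcases hz with rfl | hz
        · exact absurd rfl hyz
        · exact hcon z hz
      · rcases hz with rfl | hz
        · rw [hsymm]; exact hcon y hy
        · exact hSs y hy z hz hyz
    have h1 := hmax _ hmem
    rw [Finset.card_insert_of_notMem hxS] at h1
    omega
  have hScard := hsep S hSB hSs
  by_contra hcon
  push Not at hcon
  have h1 : (B.card : ℝ) ≤ ∑ s ∈ S, ((B.filter fun x => dist x s < ρ).card : ℝ) := by
    have h2 : B ⊆ S.biUnion fun s => B.filter fun x => dist x s < ρ := by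
      intro x hx
      obtain ⟨s, hs, h⟩ := hcov x hx
      exact Finset.mem_biUnion.2 ⟨s, hs, Finset.mem_filter.2 ⟨hx, h⟩⟩
    have h3 := (Finset.card_le_card h2).trans Finset.card_biUnion_le
    exact_mod_cast h3
  obtain ⟨x0, hx0⟩ := hB
  obtain ⟨s0, hs0, -⟩ := hcov x0 hx0
  have h4 : ∑ s ∈ S, ((B.filter fun x => dist x s < ρ).card : ℝ) < ∑ _s ∈ S, (B.card : ℝ) / N :=
    Finset.sum_lt_sum_of_nonempty ⟨s0, hs0⟩ fun s hs => hcon s (hSB hs)
  rw [Finset.sum_const, nsmul_eq_mul] at h4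
  have h5 : (S.card : ℝ) * ((B.card : ℝ) / N) ≤ N * ((B.card : ℝ) / N) :=
    mul_le_mul_of_nonneg_right hScard (by positivity)
  have h6 : N * ((B.card : ℝ) / N) = B.card := by field_simp
  linarith

variable {K : Type} [Field K] [NumberField K]

/-- many small integers, very small at one place -/
theorem many_small (w0 : InfinitePlace K) (n : ℕ) (hn : 1 ≤ n) (t : ℝ) (ht : 0 ≤ t)
    (hbig : 64 * Real.exp (w0.mult * Real.log (cb K)) * Real.exp t ≤
      (n : ℝ) ^ Module.finrank ℚ K) :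
    ∃ A : Finset (𝓞 K), (∀ a ∈ A, a ≠ 0 ∧ (∀ w : InfinitePlace K, w (a : K) ≤ 2 * cb K * n) ∧
      w0 (a : K) ≤ n * Real.exp (-t / w0.mult)) ∧
      (n : ℝ) ^ Module.finrank ℚ K * Real.exp (-t) /
        (64 * Real.exp (w0.mult * Real.log (cb K))) ≤ (A.card : ℝ) := by
  classical
  have hm : (0 : ℝ) < w0.mult := by exact_mod_cast InfinitePlace.mult_pos
  have hc1 := one_le_cb K
  have hc0 : 0 < cb K := by linarith
  have hn0 : (0 : ℝ) < n := by exact_mod_cast hn
  obtain ⟨ρ, hρ⟩ : ∃ ρ : ℝ, ρ = n * Real.exp (-t / w0.mult) := ⟨_, rfl⟩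
  have hρ0 : 0 < ρ := by rw [hρ]; positivity
  obtain ⟨N, hN⟩ : ∃ N : ℝ, N = 32 * Real.exp (w0.mult * Real.log (cb K)) * Real.exp t := ⟨_, rfl⟩
  have hN0 : 0 < N := by rw [hN]; positivity
  have hlogc : 0 ≤ Real.log (cb K) := Real.log_nonneg hc1
  have hBne : (box K n).Nonempty := by
    rw [← Finset.card_pos, card_box]
    exact pow_pos (by omega) _
  have hsep : ∀ S ⊆ box K n, (∀ x ∈ S, ∀ y ∈ S, x ≠ y → ρ ≤ w0 ((x : K) - (y : K))) →
      (S.card : ℝ) ≤ N := by
    intro S hS hs
    have hinj : Function.Injective (fun a : 𝓞 K => (a : K)) := RingOfIntegers.coe_injective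
    have h1 := packing_place w0 (S.image fun a : 𝓞 K => (a : K)) 0 (cb K * n) ρ (by positivity)
      hρ0 ?_ ?_
    · rw [Finset.card_image_of_injective _ hinj] at h1
      have h2 : 2 * (cb K * n) / ρ =
          2 * Real.exp ((w0.mult * Real.log (cb K) + t) / w0.mult) := by
        have e1 : (w0.mult * Real.log (cb K) + t) / w0.mult = Real.log (cb K) + t / w0.mult := by
          field_simp
        rw [e1, Real.exp_add, Real.exp_log hc0, hρ, neg_div, Real.exp_neg]
        field_simp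
      rw [h2] at h1
      refine (h1.trans (pow_mult_le w0 _)).trans ?_
      rw [hN, Real.exp_add]
      have h3 : 1 ≤ Real.exp (w0.mult * Real.log (cb K)) := Real.one_le_exp (by positivity)
      have h4 : 1 ≤ Real.exp t := Real.one_le_exp ht
      nlinarith [mul_le_mul h3 h4 zero_le_one (by linarith)]
    · intro y hy
      obtain ⟨a, ha, rfl⟩ := Finset.mem_image.1 hy
      rw [sub_zero]
      exact box_le K (hS ha) w0
    · intro y hy y' hy' hne
      obtain ⟨a, ha, rfl⟩ := Finset.mem_image.1 hy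
      obtain ⟨b, hb, rfl⟩ := Finset.mem_image.1 hy'
      exact hs a ha b hb fun h => hne (by rw [h])
  obtain ⟨s, hsB, hs⟩ := large_class (box K n) (fun x y => w0 ((x : K) - (y : K))) ρ N hN0
    (fun x => by
      show w0 ((x : K) - (x : K)) < ρ
      rw [sub_self, map_zero]; exact hρ0) hBne hsep
    (fun x y => by
      show w0 ((x : K) - (y : K)) = w0 ((y : K) - (x : K))
      exact w0.1.map_sub _ _)
  obtain ⟨G, hG⟩ : ∃ G, G = (box K n).filter fun x : 𝓞 K => w0 ((x : K) - (s : K)) < ρ := ⟨_, rfl⟩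
  have hs' : ((box K n).card : ℝ) / N ≤ (G.card : ℝ) := by rw [hG]; exact hs
  rw [card_box] at hs'
  push_cast at hs'
  refine ⟨(G.erase s).image fun x => x - s, ?_, ?_⟩
  · intro a ha
    obtain ⟨x, hx, rfl⟩ := Finset.mem_image.1 ha
    obtain ⟨hxs, hxG⟩ := Finset.mem_erase.1 hx
    rw [hG, Finset.mem_filter] at hxG
    have e : ((x - s : 𝓞 K) : K) = (x : K) - (s : K) := by push_cast; rfl
    refine ⟨sub_ne_zero.2 hxs, fun w => ?_, ?_⟩
    · rw [e]
      have h1 : w ((x : K) - (s : K)) ≤ w (x : K) + w (s : K) := by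
        have := w.1.sub_le (x : K) 0 (s : K)
        have h2 := w.1.add_le (x : K) (-(s : K))
        have h3 : w.1 (-(s : K)) = w.1 (s : K) := w.1.map_neg _
        rw [h3, ← sub_eq_add_neg] at h2
        exact h2
      have h2 := box_le K hxG.1 w
      have h3 := box_le K hsB w
      linarith
    · rw [e, ← hρ]
      exact hxG.2.le
  · rw [Finset.card_image_of_injective _ (sub_left_injective)]
    have hsG : s ∈ G := by
      rw [hG, Finset.mem_filter]
      refine ⟨hsB, ?_⟩
      rw [sub_self, map_zero]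
      exact hρ0
    have h1 : (G.card : ℝ) = ((G.erase s).card : ℝ) + 1 := by
      rw [Finset.card_erase_of_mem hsG, Nat.cast_sub (Finset.card_pos.2 ⟨s, hsG⟩)]
      push_cast
      ring
    have h2 : 2 ≤ (n : ℝ) ^ Module.finrank ℚ K / N := by
      rw [le_div_iff₀ hN0, hN]
      linarith
    have h3 : (n : ℝ) ^ Module.finrank ℚ K * Real.exp (-t) /
        (64 * Real.exp (w0.mult * Real.log (cb K))) = (n : ℝ) ^ Module.finrank ℚ K / N / 2 := by
      rw [hN, Real.exp_neg]
      field_simp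
      ring
    rw [h3]
    linarith

end Pool.Agent.V8H4.TL
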