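import Mathlib
import Pool.Agent.V8H4.TL.Box

/-!
# Heights and multiplicities of the quotients of the pairs
-/

set_option autoImplicit false
set_option linter.unusedSectionVars false

namespace Pool.Agent.V8H4.TL

open NumberField IsDedekindDomain Finset Pool.Agent.H691R3

variable {K : Type} [Field K] [NumberField K]

theorem fv_int_le (v : HeightOneSpectrum (𝓞 K)) (a : 𝓞 K) : fv v (a : K) ≤ 1 :=
  FinitePlace.norm_le_one K v a

theorem coe_ne {a : 𝓞 K} (h : a ≠ 0) : (a : K) ≠ 0 := RingOfIntegers.coe_ne_zero_iff.mpr h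

variable (K) in
/-- the degree, as a sum over the infinite places -/
theorem sum_mult : ∑ w : InfinitePlace K, (w.mult : ℝ) = (Module.finrank ℚ K : ℝ) := by
  exact_mod_cast InfinitePlace.sum_mult_eq (K := K)

/-- the height of a number which is small at the infinite places -/
theorem hr_small {x : K} (hx : ∀ w : InfinitePlace K, w x ≤ 1) :
    hr (aff x) = ∑ᶠ v : HeightOneSpectrum (𝓞 K), Real.log (max (fv v x) 1) := by
  unfold hr
  have h1 : ∑ w : InfinitePlace K, (w.mult : ℝ) * Real.log (max (w (aff x).1) (w (aff x).2)) = 0 := by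
    refine Finset.sum_eq_zero fun w _ => ?_
    have : max (w (aff x).1) (w (aff x).2) = 1 := by
      show max (w x) (w 1) = 1
      rw [map_one]
      exact max_eq_right (hx w)
    rw [this, Real.log_one, mul_zero]
  rw [h1, zero_add]
  refine finsum_congr fun v => ?_
  show Real.log (max (fv v x) (fv v 1)) = _
  rw [map_one]

theorem log_max_finite (x : K) : (Function.support fun v : HeightOneSpectrum (𝓞 K) =>
    Real.log (max (fv v x) 1)).Finite := by
  refine (log_max_support_finite (K := K) (aff_ne_zero x)).subset ?_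
  intro v hv
  simp only [Function.mem_support] at hv ⊢
  intro h
  apply hv
  have h2 : max (fv v (aff x).1) (fv v (aff x).2) = max (fv v x) 1 := by
    show max (fv v x) (fv v 1) = _
    rw [map_one]
  rw [h2] at h
  exact h

/-- a denominator of `x` has large norm -/
theorem denom_norm {x : K} (hx : ∀ w : InfinitePlace K, w x ≤ 1) {b c : 𝓞 K} (hb : b ≠ 0)
    (hc : (c : K) = x * b) :
    hr (aff x) ≤ ∑ w : InfinitePlace K, (w.mult : ℝ) * Real.log (w (b : K)) := by
  have hb' := coe_ne hb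
  have h1 := log_product_formula (K := K) hb'
  have h2 : ∑ᶠ v : HeightOneSpectrum (𝓞 K), Real.log (max (fv v x) 1) +
      ∑ᶠ v : HeightOneSpectrum (𝓞 K), Real.log (fv v (b : K)) ≤ 0 := by
    rw [← finsum_add_distrib (log_max_finite x) (log_fv_support_finite hb')]
    have h3 : ∀ v : HeightOneSpectrum (𝓞 K),
        Real.log (max (fv v x) 1) + Real.log (fv v (b : K)) ≤ 0 := by
      intro v
      have hbv := (fv v).pos hb'
      rw [← Real.log_mul (lt_max_of_lt_right one_pos).ne' hbv.ne']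
      refine Real.log_nonpos (mul_nonneg (le_max_of_le_right zero_le_one) hbv.le) ?_
      rw [max_mul_of_nonneg _ _ hbv.le, one_mul, ← map_mul, ← hc]
      exact max_le (fv_int_le v c) (fv_int_le v b)
    have h4 := finsum_nonneg (f := fun v : HeightOneSpectrum (𝓞 K) =>
      -(Real.log (max (fv v x) 1) + Real.log (fv v (b : K)))) fun v => by
        have := h3 v
        linarith
    rw [finsum_neg_distrib] at h4
    linarith
  rw [hr_small hx]
  linarith

/-- the number of denominators of `x` in a set of integers of small diameter -/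
theorem mult_le (w0 : InfinitePlace K) {x : K} (hx : ∀ w : InfinitePlace K, w x ≤ 1) (R : ℝ)
    (hR : 0 < R) (G : Finset (𝓞 K)) (b0 : K)
    (h1 : ∀ b ∈ G, ∃ c : 𝓞 K, (c : K) = x * b) (h2 : ∀ b ∈ G, w0 ((b : K) - b0) ≤ R)
    (h3 : ∀ b ∈ G, ∀ b' ∈ G, ∀ w : InfinitePlace K, w ((b : K) - b') ≤ R) :
    (G.card : ℝ) ≤ 16 * (1 + Real.exp (Module.finrank ℚ K * Real.log R - hr (aff x))) := by
  classical
  have hm : (0 : ℝ) < w0.mult := by exact_mod_cast InfinitePlace.mult_pos
  have hinj : Function.Injective (fun a : 𝓞 K => (a : K)) := RingOfIntegers.coe_injective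
  obtain ⟨u, hu⟩ : ∃ u, u = Module.finrank ℚ K * Real.log R - hr (aff x) := ⟨_, rfl⟩
  obtain ⟨ρ, hρ⟩ : ∃ ρ : ℝ, ρ = R * Real.exp (-u / w0.mult) := ⟨_, rfl⟩
  have hρ0 : 0 < ρ := by rw [hρ]; positivity
  have h4 := packing_place w0 (G.image fun a : 𝓞 K => (a : K)) b0 R ρ hR.le hρ0 ?_ ?_
  · rw [Finset.card_image_of_injective _ hinj] at h4
    have h5 : 2 * R / ρ = 2 * Real.exp (u / w0.mult) := by
      rw [hρ, neg_div, Real.exp_neg]
      field_simp
    rw [h5] at h4
    rw [← hu]
    exact h4.trans (pow_mult_le w0 u)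
  · intro y hy
    obtain ⟨b, hb, rfl⟩ := Finset.mem_image.1 hy
    exact h2 b hb
  · intro y hy y' hy' hne
    obtain ⟨b, hb, rfl⟩ := Finset.mem_image.1 hy
    obtain ⟨b', hb', rfl⟩ := Finset.mem_image.1 hy'
    have hbb : b - b' ≠ 0 := sub_ne_zero.2 fun h => hne (by rw [h])
    obtain ⟨c, hc⟩ := h1 b hb
    obtain ⟨c', hc'⟩ := h1 b' hb'
    have e : ((b - b' : 𝓞 K) : K) = (b : K) - b' := by push_cast; rfl
    have ec : ((c - c' : 𝓞 K) : K) = (c : K) - c' := by push_cast; rfl
    have h5 := denom_norm hx hbb (c := c - c') (by rw [ec, e, hc, hc']; ring)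
    rw [e] at h5
    have h6 : ∀ w : InfinitePlace K, 0 < w ((b : K) - b') := fun w => by
      rw [← e]; exact w.pos_iff.2 (coe_ne hbb)
    rw [← Finset.add_sum_erase _ _ (Finset.mem_univ w0)] at h5
    have h7 : ∑ w ∈ Finset.univ.erase w0, (w.mult : ℝ) * Real.log (w ((b : K) - b')) ≤
        ∑ w ∈ Finset.univ.erase w0, (w.mult : ℝ) * Real.log R :=
      Finset.sum_le_sum fun w _ => mul_le_mul_of_nonneg_left
        (Real.log_le_log (h6 w) (h3 b hb b' hb' w)) (Nat.cast_nonneg _)
    have h8 : ∑ w ∈ Finset.univ.erase w0, (w.mult : ℝ) * Real.log R =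
        Module.finrank ℚ K * Real.log R - w0.mult * Real.log R := by
      rw [← sum_mult K, Finset.sum_mul, ← Finset.add_sum_erase _ _ (Finset.mem_univ w0)]
      ring
    have h9 : w0.mult * Real.log ρ ≤ w0.mult * Real.log (w0 ((b : K) - b')) := by
      rw [hρ, Real.log_mul hR.ne' (Real.exp_pos _).ne', Real.log_exp]
      have : (w0.mult : ℝ) * (Real.log R + -u / w0.mult) = w0.mult * Real.log R - u := by
        field_simp
        ring
      rw [this, hu]
      linarith
    exact (Real.log_le_log_iff hρ0 (h6 w0)).1 (le_of_mul_le_mul_left h9 hm)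

/-- the number of points of bounded height, close to `0` at one place -/
theorem few_close (w0 : InfinitePlace K) : ∀ (t Y : ℝ) (E : Finset K), 0 ≤ t →
    (∀ x ∈ E, x ≠ 0 ∧ w0 x ≤ 1 ∧ w0.mult * Real.log (w0 x) ≤ -t ∧ hr (aff x) ≤ Y) →
    (E.card : ℝ) ≤ 32 * Real.exp (3 * lossK K) * (1 + Real.exp (2 * Y - t + 1)) := by
  classical
  intro t Y E ht hE
  have h := class_bound (K := K) (q := 1) (fun _ => ((0 : K), (1 : K)))
    (fun _ h => one_ne_zero (congrArg Prod.snd h)) {(Sum.inl w0, 0, ⌊t⌋₊)}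
    (by simp) E Y ?_ (fun x hx => (hE x hx).2.2.2) ?_
  · refine h.trans ?_
    rw [Finset.sum_singleton]
    refine mul_le_mul_of_nonneg_left ?_ (by positivity)
    have h1 : Real.exp (2 * Y - (⌊t⌋₊ : ℝ) * Lu (Sum.inl w0 : Pl K)) ≤ Real.exp (2 * Y - t + 1) := by
      refine Real.exp_le_exp.mpr ?_
      have h2 := (Nat.lt_floor_add_one t).le
      have h3 : Lu (Sum.inl w0 : Pl K) = 1 := rfl
      rw [h3]
      linarith
    linarith
  · intro x hx _
    show x * 1 - 1 * 0 ≠ 0
    rw [mul_one, mul_zero, sub_zero]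
    exact (hE x hx).1
  · intro x hx a ha
    rw [Finset.mem_singleton] at ha
    subst ha
    obtain ⟨h0, h1, h2, h3⟩ := hE x hx
    show (⌊t⌋₊ : ℝ) * 1 ≤ w0.mult * lamA w0.1 (aff x) ((0 : K), (1 : K))
    have h4 : lamA w0.1 (aff x) ((0 : K), (1 : K)) = -Real.log (w0 x) := by
      unfold lamA
      have e1 : max (w0.1 (aff x).1) (w0.1 (aff x).2) = 1 := by
        show max (w0 x) (w0 1) = 1
        rw [map_one]
        exact max_eq_right h1
      have e2 : max (w0.1 ((0 : K), (1 : K)).1) (w0.1 ((0 : K), (1 : K)).2) = 1 := by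
        show max (w0 0) (w0 1) = 1
        rw [map_one, map_zero]
        norm_num
      have e3 : w0.1 ((aff x).1 * ((0 : K), (1 : K)).2 - (aff x).2 * ((0 : K), (1 : K)).1) = w0 x := by
        show w0 (x * 1 - 1 * 0) = w0 x
        rw [mul_one, mul_zero, sub_zero]
      rw [e1, e2, e3, one_mul, one_div, Real.log_inv]
    rw [h4]
    have h5 := Nat.floor_le ht
    linarith

/-- summation by layers -/
theorem layers {X : Type*} (S : Finset X) (h : X → ℝ) (A B Y : ℝ) (hA : 0 ≤ A) (hB : 0 ≤ B)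
    (hh : ∀ x ∈ S, 0 ≤ h x ∧ h x ≤ Y)
    (hc : ∀ (Z : ℝ), ((S.filter fun x => h x ≤ Z).card : ℝ) ≤ A + B * Real.exp (2 * Z)) :
    ∑ x ∈ S, Real.exp (-h x) ≤ 2 * A + 2 * B * Real.exp (2 + Y) := by
  classical
  rcases S.eq_empty_or_nonempty with rfl | ⟨x0, hx0⟩
  · simp only [Finset.sum_empty]
    positivity
  have hY : 0 ≤ Y := (hh x0 hx0).1.trans (hh x0 hx0).2
  obtain ⟨N, hN⟩ : ∃ N : ℕ, N = ⌊Y⌋₊ + 1 := ⟨_, rfl⟩
  have hmaps : ∀ x ∈ S, ⌊h x⌋₊ ∈ Finset.range N := by
    intro x hx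
    rw [Finset.mem_range, hN]
    have := Nat.floor_le_floor (hh x hx).2
    omega
  rw [← Finset.sum_fiberwise_of_maps_to hmaps]
  have h1 : ∀ k ∈ Finset.range N, ∑ x ∈ S with ⌊h x⌋₊ = k, Real.exp (-h x) ≤
      Real.exp (-(k : ℝ)) * A + B * Real.exp 2 * Real.exp (k : ℝ) := by
    intro k _
    have h2 : ∑ x ∈ S with ⌊h x⌋₊ = k, Real.exp (-h x) ≤
        ∑ x ∈ S with ⌊h x⌋₊ = k, Real.exp (-(k : ℝ)) := by
      refine Finset.sum_le_sum fun x hx => ?_
      rw [Finset.mem_filter] at hx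
      refine Real.exp_le_exp.mpr ?_
      have := Nat.floor_le (hh x hx.1).1
      rw [hx.2] at this
      linarith
    have h3 : ((S.filter fun x => ⌊h x⌋₊ = k).card : ℝ) ≤ A + B * Real.exp (2 * (k + 1)) := by
      refine le_trans ?_ (hc (k + 1))
      exact_mod_cast Finset.card_le_card fun x hx => by
        rw [Finset.mem_filter] at hx ⊢
        refine ⟨hx.1, ?_⟩
        have := (Nat.lt_floor_add_one (h x)).le
        rw [hx.2] at this
        exact_mod_cast this
    rw [Finset.sum_const, nsmul_eq_mul] at h2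
    refine h2.trans ((mul_le_mul_of_nonneg_right h3 (Real.exp_pos _).le).trans (le_of_eq ?_))
    rw [add_mul, mul_comm A, mul_assoc, mul_assoc, ← Real.exp_add, ← Real.exp_add]
    congr 3
    ring
  refine (Finset.sum_le_sum h1).trans ?_
  rw [Finset.sum_add_distrib, ← Finset.sum_mul, ← Finset.mul_sum]
  have e2 : (2 : ℝ) ≤ Real.exp 1 := by linarith [Real.add_one_le_exp 1]
  have hgeo1 : ∀ N : ℕ, ∑ k ∈ Finset.range N, Real.exp (-(k : ℝ)) ≤ 2 - 2 * Real.exp (-(N : ℝ)) / 1 := by
    intro N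
    induction N with
    | zero => simp
    | succ N ih =>
      rw [Finset.sum_range_succ]
      have h4 : Real.exp (-((N + 1 : ℕ) : ℝ)) * Real.exp 1 = Real.exp (-(N : ℝ)) := by
        rw [← Real.exp_add]; congr 1; push_cast; ring
      have h5 := Real.exp_pos (-((N + 1 : ℕ) : ℝ))
      nlinarith
  have hgeo2 : ∀ N : ℕ, ∑ k ∈ Finset.range (N + 1), Real.exp (k : ℝ) ≤ 2 * Real.exp (N : ℝ) := by
    intro N
    induction N with
    | zero => simp
    | succ N ih =>
      rw [Finset.sum_range_succ]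
      have h4 : Real.exp ((N + 1 : ℕ) : ℝ) = Real.exp (N : ℝ) * Real.exp 1 := by
        rw [← Real.exp_add]; congr 1; push_cast; ring
      have h5 := Real.exp_pos (N : ℝ)
      nlinarith
  have g1 := hgeo1 N
  have g2 := hgeo2 ⌊Y⌋₊
  rw [← hN] at g2
  have g3 : Real.exp (⌊Y⌋₊ : ℝ) ≤ Real.exp Y := Real.exp_le_exp.mpr (Nat.floor_le hY)
  have g4 := Real.exp_pos (-(N : ℝ))
  have g5 : (∑ k ∈ Finset.range N, Real.exp (-(k : ℝ))) * A ≤ 2 * A :=
    mul_le_mul_of_nonneg_right (by linarith) hA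
  have g6 : B * Real.exp 2 * ∑ k ∈ Finset.range N, Real.exp (k : ℝ) ≤
      B * Real.exp 2 * (2 * Real.exp Y) :=
    mul_le_mul_of_nonneg_left (by linarith) (by positivity)
  have g7 : B * Real.exp 2 * (2 * Real.exp Y) = 2 * B * Real.exp (2 + Y) := by
    rw [Real.exp_add]; ring
  linarith

end Pool.Agent.V8H4.TL
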