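import Mathlib
import Pool.Agent.V8H4.TL.Mult

/-!
# Many points close to a cusp: the sharp lower bound
-/

set_option autoImplicit false
set_option linter.unusedSectionVars false

namespace Pool.Agent.V8H4.TL

open NumberField IsDedekindDomain Finset Pool.Agent.H691R3

variable {K : Type} [Field K] [NumberField K]

/-- many points of `K` of bounded height, close to `0` at one infinite place -/
theorem many_close (w0 : InfinitePlace K) : ∃ c C0 C1 : ℝ, 0 < c ∧ 0 < C0 ∧ 1 ≤ C1 ∧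
    ∀ n : ℕ, 1 ≤ n → ∀ t : ℝ, 0 ≤ t → C0 * Real.exp t ≤ (n : ℝ) ^ Module.finrank ℚ K →
    ∃ E : Finset K, (∀ x ∈ E, x ≠ 0 ∧ (∀ w : InfinitePlace K, w x ≤ 1 / 2) ∧
      w0.mult * Real.log (w0 x) ≤ -t ∧ hr (aff x) ≤ Module.finrank ℚ K * Real.log (C1 * n)) ∧
      c * ((n : ℝ) ^ Module.finrank ℚ K) ^ 2 * Real.exp (-t) ≤ (E.card : ℝ) := by
  classical
  obtain ⟨d, hd⟩ : ∃ d, d = Module.finrank ℚ K := ⟨_, rfl⟩
  have hm : (0 : ℝ) < w0.mult := by exact_mod_cast InfinitePlace.mult_pos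
  obtain ⟨g, hg⟩ : ∃ g, g = cb K := ⟨_, rfl⟩
  have hg1 : 1 ≤ g := by rw [hg]; exact one_le_cb K
  obtain ⟨K0, hK0⟩ : ∃ K0 : ℕ, 5 * g ≤ K0 := exists_nat_ge _
  obtain ⟨C3, hC3⟩ : ∃ C3, C3 = 32 * Real.exp (3 * lossK K) := ⟨_, rfl⟩
  have hC30 : 0 < C3 := by rw [hC3]; positivity
  obtain ⟨cA, hcA⟩ : ∃ cA, cA = (64 * Real.exp (w0.mult * Real.log g))⁻¹ := ⟨_, rfl⟩
  have hcA0 : 0 < cA := by rw [hcA]; positivity
  obtain ⟨Q, hQ⟩ : ∃ Q, Q = 256 * C3 * Real.exp 3 * ((2 * g) ^ d) ^ 2 / cA := ⟨_, rfl⟩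
  have hQ0 : 0 < Q := by rw [hQ]; positivity
  obtain ⟨J, hJ⟩ : ∃ J, J = Real.log (1 + Q) := ⟨_, rfl⟩
  have hJ0 : 0 ≤ J := by rw [hJ]; exact Real.log_nonneg (by linarith)
  have hJe : Real.exp (-J) ≤ 1 / Q := by
    rw [hJ, Real.exp_neg, Real.exp_log (by linarith), one_div]
    exact inv_anti₀ hQ0 (by linarith)
  refine ⟨cA / (32 * (1 + Real.exp J)), 256 * C3 * (2 * g) ^ d / cA +
    64 * Real.exp (w0.mult * Real.log g), K0 + g, by positivity, by positivity, ?_,
    fun n hn t ht hbig => ?_⟩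
  · have : (0 : ℝ) ≤ K0 := Nat.cast_nonneg _
    linarith
  rw [← hd] at hbig ⊢
  have hn0 : (0 : ℝ) < n := by exact_mod_cast hn
  have hK00 : (0 : ℝ) ≤ K0 := Nat.cast_nonneg _
  obtain ⟨A, hA, hAc⟩ := many_small w0 n hn t ht (by
    rw [← hd, ← hg]
    refine le_trans ?_ hbig
    rw [add_mul]
    have : 0 ≤ 256 * C3 * (2 * g) ^ d / cA * Real.exp t := by positivity
    linarith)
  rw [← hd, ← hg, div_eq_mul_inv, ← hcA] at hAc
  rw [← hg] at hA
  -- the denominators
  obtain ⟨Bs, hBs⟩ : ∃ Bs, Bs = (box K n).image fun b => ((K0 * n : ℕ) : 𝓞 K) + b := ⟨_, rfl⟩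
  have hBc : (Bs.card : ℝ) = (n : ℝ) ^ d := by
    rw [hBs, Finset.card_image_of_injective _ (add_right_injective _), card_box, ← hd]
    push_cast
    rfl
  have hBmem : ∀ b ∈ Bs, ∃ b' ∈ box K n, (b : K) = ((K0 * n : ℕ) : K) + b' := by
    intro b hb
    rw [hBs] at hb
    obtain ⟨b', hb', rfl⟩ := Finset.mem_image.1 hb
    refine ⟨b', hb', ?_⟩
    show algebraMap (𝓞 K) K _ = _
    rw [map_add, map_natCast]
  have hwN : ∀ w : InfinitePlace K, w ((K0 * n : ℕ) : K) = K0 * n := by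
    intro w
    rw [← InfinitePlace.norm_embedding_eq, map_natCast, Complex.norm_natCast]
    push_cast
    rfl
  have hBup : ∀ b ∈ Bs, ∀ w : InfinitePlace K, w (b : K) ≤ (K0 + g) * n := by
    intro b hb w
    obtain ⟨b', hb', e⟩ := hBmem b hb
    rw [e]
    have h1 : w (((K0 * n : ℕ) : K) + (b' : K)) ≤ w ((K0 * n : ℕ) : K) + w (b' : K) :=
      w.1.add_le _ _
    have h2 := box_le K hb' w
    rw [hwN, ] at h1
    rw [← hg] at h2
    nlinarith
  have hBlo : ∀ b ∈ Bs, ∀ w : InfinitePlace K, 4 * g * n ≤ w (b : K) := by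
    intro b hb w
    obtain ⟨b', hb', e⟩ := hBmem b hb
    rw [e]
    have h1 : w ((K0 * n : ℕ) : K) ≤ w (((K0 * n : ℕ) : K) + (b' : K)) + w (b' : K) := by
      have h3 := w.1.add_le (((K0 * n : ℕ) : K) + (b' : K)) (-(b' : K))
      have h4 : w.1 (-(b' : K)) = w.1 (b' : K) := w.1.map_neg _
      rw [h4] at h3
      have h5 : ((K0 * n : ℕ) : K) + (b' : K) + -(b' : K) = ((K0 * n : ℕ) : K) := by ring
      rw [h5] at h3
      exact h3
    have h2 := box_le K hb' w
    rw [hwN] at h1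
    rw [← hg] at h2
    have h6 : 5 * g * n ≤ K0 * n := mul_le_mul_of_nonneg_right hK0 hn0.le
    linarith
  have hB0 : ∀ b ∈ Bs, b ≠ 0 := by
    intro b hb h
    have h1 := hBlo b hb w0
    rw [h] at h1
    have h2 : w0 ((0 : 𝓞 K) : K) = 0 := by
      have : ((0 : 𝓞 K) : K) = 0 := rfl
      rw [this, map_zero]
    rw [h2] at h1
    have : 0 < 4 * g * n := by positivity
    linarith
  obtain ⟨q, hq⟩ : ∃ q : 𝓞 K × 𝓞 K → K, q = fun p => (p.1 : K) / (p.2 : K) := ⟨_, rfl⟩
  obtain ⟨P, hP⟩ : ∃ P, P = A ×ˢ Bs := ⟨_, rfl⟩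
  have hPc : (P.card : ℝ) = A.card * (n : ℝ) ^ d := by
    rw [hP, Finset.card_product, Nat.cast_mul, hBc]
  -- the properties of the quotients
  have hqp : ∀ p ∈ P, q p ≠ 0 ∧ (∀ w : InfinitePlace K, w (q p) ≤ 1 / 2) ∧
      w0.mult * Real.log (w0 (q p)) ≤ -t ∧ (p.1 : K) = q p * (p.2 : K) ∧
      hr (aff (q p)) ≤ d * Real.log ((K0 + g) * n) := by
    intro p hp
    rw [hP, Finset.mem_product] at hp
    obtain ⟨ha, hb⟩ := hp
    obtain ⟨a0, a1, a2⟩ := hA _ ha
    have hb0 := coe_ne (hB0 _ hb)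
    have ha0 := coe_ne a0
    have e : (p.1 : K) = q p * (p.2 : K) := by
      rw [hq]; simp only; rw [div_mul_cancel₀ _ hb0]
    have hw : ∀ w : InfinitePlace K, w (q p) = w (p.1 : K) / w (p.2 : K) := fun w => by
      rw [hq]; simp only; rw [map_div₀]
    have hhalf : ∀ w : InfinitePlace K, w (q p) ≤ 1 / 2 := by
      intro w
      have h1 := hBlo _ hb w
      have h2 := a1 w
      rw [hw, div_le_iff₀ (lt_of_lt_of_le (by positivity) h1)]
      linarith
    have hq0 : q p ≠ 0 := by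
      rw [hq]; exact div_ne_zero ha0 hb0
    refine ⟨hq0, hhalf, ?_, e, ?_⟩
    · have h1 : w0 (q p) ≤ Real.exp (-t / w0.mult) := by
        have h1 := hBlo _ hb w0
        rw [hw, div_le_iff₀ (lt_of_lt_of_le (by positivity) h1)]
        refine a2.trans ?_
        have h3 : (n : ℝ) ≤ w0 (p.2 : K) := by
          refine le_trans ?_ h1
          nlinarith
        rw [mul_comm]
        exact mul_le_mul_of_nonneg_left h3 (Real.exp_pos _).le
      have h2 : Real.log (w0 (q p)) ≤ -t / w0.mult :=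
        (Real.log_le_iff_le_exp (w0.pos_iff.2 hq0)).2 h1
      have h3 := mul_le_mul_of_nonneg_left h2 hm.le
      have h4 : (w0.mult : ℝ) * (-t / w0.mult) = -t := by field_simp
      linarith
    · refine (denom_norm (fun w => (hhalf w).trans (by norm_num)) (hB0 _ hb) e).trans ?_
      rw [hd, ← sum_mult K, Finset.sum_mul]
      refine Finset.sum_le_sum fun w _ => mul_le_mul_of_nonneg_left ?_ (Nat.cast_nonneg _)
      refine Real.log_le_log (lt_of_lt_of_le (by positivity) (hBlo _ hb w)) (hBup _ hb w)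
  -- multiplicities
  obtain ⟨R, hR⟩ : ∃ R : ℝ, R = 2 * g * n := ⟨_, rfl⟩
  have hR0 : 0 < R := by rw [hR]; positivity
  obtain ⟨D, hD⟩ : ∃ D : ℝ, D = d * Real.log R := ⟨_, rfl⟩
  have hDe : Real.exp D = (2 * g) ^ d * (n : ℝ) ^ d := by
    rw [hD, Real.exp_nat_mul, Real.exp_log hR0, hR, mul_pow]
  have hmult : ∀ x ∈ P.image q, ((P.filter fun p => q p = x).card : ℝ) ≤
      16 * (1 + Real.exp (D - hr (aff x))) := by
    intro x hx
    obtain ⟨p0, hp0, rfl⟩ := Finset.mem_image.1 hx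
    have hinj : Set.InjOn (fun p : 𝓞 K × 𝓞 K => p.2) (P.filter fun p => q p = q p0) := by
      intro p hp p' hp' hpp
      rw [Finset.mem_coe, Finset.mem_filter] at hp hp'
      simp only at hpp
      have e1 := (hqp p hp.1).2.2.2.1
      have e2 := (hqp p' hp'.1).2.2.2.1
      rw [hp.2, hpp] at e1
      rw [hp'.2, ← e1] at e2
      have e3 : p.1 = p'.1 := RingOfIntegers.coe_injective e2.symm
      exact Prod.ext e3 hpp
    rw [← Finset.card_image_of_injOn hinj, hD, hd]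
    refine mult_le w0 (fun w => ((hqp p0 hp0).2.1 w).trans (by norm_num)) R hR0 _
      ((K0 * n : ℕ) : K) ?_ ?_ ?_
    · intro b hb
      obtain ⟨p, hp, rfl⟩ := Finset.mem_image.1 hb
      rw [Finset.mem_filter] at hp
      exact ⟨p.1, by rw [(hqp p hp.1).2.2.2.1, hp.2]⟩
    · intro b hb
      obtain ⟨p, hp, rfl⟩ := Finset.mem_image.1 hb
      rw [Finset.mem_filter, hP, Finset.mem_product] at hp
      obtain ⟨b', hb', e⟩ := hBmem _ hp.1.2
      rw [e, add_sub_cancel_left, hR]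
      have h2 := box_le K hb' w0
      rw [← hg] at h2
      nlinarith
    · intro b hb b'' hb'' w
      obtain ⟨p, hp, rfl⟩ := Finset.mem_image.1 hb
      obtain ⟨p', hp', rfl⟩ := Finset.mem_image.1 hb''
      rw [Finset.mem_filter, hP, Finset.mem_product] at hp hp'
      obtain ⟨b', hb', e⟩ := hBmem _ hp.1.2
      obtain ⟨b3, hb3, e'⟩ := hBmem _ hp'.1.2
      rw [e, e', add_sub_add_left_eq_sub, hR]
      have h2 := box_le K hb' w
      have h3 := box_le K hb3 w
      rw [← hg] at h2 h3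
      have h4 : w ((b' : K) - (b3 : K)) ≤ w (b' : K) + w (b3 : K) := by
        have h5 := w.1.add_le (b' : K) (-(b3 : K))
        have h6 : w.1 (-(b3 : K)) = w.1 (b3 : K) := w.1.map_neg _
        rw [h6, ← sub_eq_add_neg] at h5
        exact h5
      linarith
  -- the points of small height
  obtain ⟨S, hS⟩ : ∃ S, S = P.image q := ⟨_, rfl⟩
  rw [← hS] at hmult
  have hSp : ∀ x ∈ S, x ≠ 0 ∧ (∀ w : InfinitePlace K, w x ≤ 1 / 2) ∧
      w0.mult * Real.log (w0 x) ≤ -t ∧ hr (aff x) ≤ d * Real.log ((K0 + g) * n) := by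
    intro x hx
    rw [hS] at hx
    obtain ⟨p, hp, rfl⟩ := Finset.mem_image.1 hx
    obtain ⟨h1, h2, h3, -, h4⟩ := hqp p hp
    exact ⟨h1, h2, h3, h4⟩
  obtain ⟨Slo, hSlo⟩ : ∃ Slo, Slo = S.filter fun x => hr (aff x) ≤ D - J := ⟨_, rfl⟩
  obtain ⟨E, hE⟩ : ∃ E, E = S.filter fun x => ¬ hr (aff x) ≤ D - J := ⟨_, rfl⟩
  have hlow : ∑ x ∈ Slo, Real.exp (-hr (aff x)) ≤
      2 * C3 + 2 * (C3 * Real.exp (1 - t)) * Real.exp (2 + (D - J)) := by
    refine layers Slo (fun x => hr (aff x)) C3 (C3 * Real.exp (1 - t)) (D - J) hC30.le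
      (by positivity) (fun x hx => ?_) (fun Z => ?_)
    · rw [hSlo, Finset.mem_filter] at hx
      exact ⟨hr_aff_nonneg x, hx.2⟩
    · have h1 := few_close w0 t Z (Slo.filter fun x => hr (aff x) ≤ Z) ht (fun x hx => by
        rw [Finset.mem_filter, hSlo, Finset.mem_filter] at hx
        obtain ⟨h1, h2, h3, -⟩ := hSp x hx.1.1
        exact ⟨h1, (h2 w0).trans (by norm_num), h3, hx.2⟩)
      refine h1.trans (le_of_eq ?_)
      rw [← hC3, mul_add, mul_one, mul_assoc, ← Real.exp_add]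
      congr 3
      ring
  have hlow2 : ∑ x ∈ Slo, ((P.filter fun p => q p = x).card : ℝ) ≤ (P.card : ℝ) / 2 := by
    have h1 : ∑ x ∈ Slo, ((P.filter fun p => q p = x).card : ℝ) ≤
        ∑ x ∈ Slo, 32 * Real.exp D * Real.exp (-hr (aff x)) := by
      refine Finset.sum_le_sum fun x hx => ?_
      rw [hSlo, Finset.mem_filter] at hx
      refine (hmult x hx.1).trans ?_
      rw [mul_assoc, ← Real.exp_add, ← sub_eq_add_neg]
      have : 1 ≤ Real.exp (D - hr (aff x)) := Real.one_le_exp (by linarith [hx.2])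
      linarith
    refine h1.trans ?_
    rw [← Finset.mul_sum]
    refine (mul_le_mul_of_nonneg_left hlow (by positivity)).trans ?_
    rw [hPc]
    have h2 : cA * ((n : ℝ) ^ d * Real.exp (-t)) ≤ A.card := by rw [mul_comm]; exact hAc
    have hnd : 0 < (n : ℝ) ^ d := by positivity
    have h3 : cA * ((n : ℝ) ^ d * Real.exp (-t)) * (n : ℝ) ^ d ≤ A.card * (n : ℝ) ^ d :=
      mul_le_mul_of_nonneg_right h2 hnd.le
    -- the two parts
    have p1 : 32 * Real.exp D * (2 * C3) ≤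
        cA * ((n : ℝ) ^ d * Real.exp (-t)) * (n : ℝ) ^ d / 4 := by
      have h4 : 256 * C3 * (2 * g) ^ d * Real.exp t ≤ cA * (n : ℝ) ^ d := by
        have h5 : 256 * C3 * (2 * g) ^ d / cA * Real.exp t ≤ (n : ℝ) ^ d := by
          refine le_trans ?_ hbig
          refine mul_le_mul_of_nonneg_right ?_ (Real.exp_pos _).le
          have : 0 < 64 * Real.exp (w0.mult * Real.log g) := by positivity
          linarith
        have h6 := mul_le_mul_of_nonneg_left h5 hcA0.le
        have h7 : cA * (256 * C3 * (2 * g) ^ d / cA * Real.exp t) =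
            256 * C3 * (2 * g) ^ d * Real.exp t := by field_simp
        linarith
      have h5 := mul_le_mul_of_nonneg_right h4 (by positivity : 0 ≤ Real.exp (-t) * (n : ℝ) ^ d)
      have h6 : 256 * C3 * (2 * g) ^ d * Real.exp t * (Real.exp (-t) * (n : ℝ) ^ d) =
          256 * C3 * (2 * g) ^ d * (n : ℝ) ^ d := by
        rw [Real.exp_neg]; field_simp
      rw [hDe]
      rw [h6] at h5
      linarith
    have p2 : 32 * Real.exp D * (2 * (C3 * Real.exp (1 - t)) * Real.exp (2 + (D - J))) ≤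
        cA * ((n : ℝ) ^ d * Real.exp (-t)) * (n : ℝ) ^ d / 4 := by
      have h4 : 32 * Real.exp D * (2 * (C3 * Real.exp (1 - t)) * Real.exp (2 + (D - J))) =
          64 * C3 * Real.exp 3 * Real.exp D ^ 2 * Real.exp (-t) * Real.exp (-J) := by
        have e1 : Real.exp (1 - t) = Real.exp 1 * Real.exp (-t) := by
          rw [← Real.exp_add]; congr 1
        have e2 : Real.exp (2 + (D - J)) = Real.exp 2 * Real.exp D * Real.exp (-J) := by
          rw [← Real.exp_add, ← Real.exp_add]; congr 1; ring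
        have e3 : Real.exp 3 = Real.exp 1 * Real.exp 2 := by
          rw [← Real.exp_add]; norm_num
        rw [e1, e2, e3]
        ring
      rw [h4, hDe]
      have h5 : 64 * C3 * Real.exp 3 * ((2 * g) ^ d * (n : ℝ) ^ d) ^ 2 * Real.exp (-t) *
          Real.exp (-J) ≤ 64 * C3 * Real.exp 3 * ((2 * g) ^ d * (n : ℝ) ^ d) ^ 2 * Real.exp (-t) *
          (1 / Q) := mul_le_mul_of_nonneg_left hJe (by positivity)
      refine h5.trans (le_of_eq ?_)
      rw [hQ]
      have : ((2 * g) ^ d) ≠ 0 := by positivity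
      field_simp
      ring
    linarith [mul_add (32 * Real.exp D) (2 * C3)
      (2 * (C3 * Real.exp (1 - t)) * Real.exp (2 + (D - J)))]
  refine ⟨E, fun x hx => ?_, ?_⟩
  · rw [hE, Finset.mem_filter] at hx
    exact hSp x hx.1
  · have h1 : (P.card : ℝ) = ∑ x ∈ S, ((P.filter fun p => q p = x).card : ℝ) := by
      rw [hS]
      exact_mod_cast Finset.card_eq_sum_card_image q P
    have h2 : ∑ x ∈ S, ((P.filter fun p => q p = x).card : ℝ) =
        ∑ x ∈ Slo, ((P.filter fun p => q p = x).card : ℝ) +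
        ∑ x ∈ E, ((P.filter fun p => q p = x).card : ℝ) := by
      rw [hSlo, hE]
      exact (Finset.sum_filter_add_sum_filter_not _ _ _).symm
    have h3 : ∑ x ∈ E, ((P.filter fun p => q p = x).card : ℝ) ≤
        ∑ _x ∈ E, 16 * (1 + Real.exp J) := by
      refine Finset.sum_le_sum fun x hx => ?_
      rw [hE, Finset.mem_filter, not_le] at hx
      refine (hmult x hx.1).trans ?_
      have : Real.exp (D - hr (aff x)) ≤ Real.exp J := Real.exp_le_exp.mpr (by linarith [hx.2])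
      linarith
    rw [Finset.sum_const, nsmul_eq_mul] at h3
    have h4 : (P.card : ℝ) / 2 ≤ E.card * (16 * (1 + Real.exp J)) := by linarith
    have h5 : cA * ((n : ℝ) ^ d * Real.exp (-t)) * (n : ℝ) ^ d ≤ P.card := by
      rw [hPc]
      refine mul_le_mul_of_nonneg_right ?_ (by positivity)
      rw [mul_comm]; exact hAc
    have hE0 : 0 < 32 * (1 + Real.exp J) := by positivity
    rw [div_mul_eq_mul_div, div_mul_eq_mul_div, div_le_iff₀ hE0]
    have e1 : cA * ((n : ℝ) ^ d) ^ 2 * Real.exp (-t) =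
        cA * ((n : ℝ) ^ d * Real.exp (-t)) * (n : ℝ) ^ d := by ring
    have e2 : (E.card : ℝ) * (32 * (1 + Real.exp J)) = 2 * (E.card * (16 * (1 + Real.exp J))) := by
      ring
    rw [e1, e2]
    linarith

end Pool.Agent.V8H4.TL
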