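import Mathlib
import Pool.Agent.V8H4.TL.Blocks

/-!
# The upper bound for the number of points with given excess
-/

set_option autoImplicit false
set_option linter.unusedSectionVars false

namespace Pool.Agent.V8H4.TL

open NumberField IsDedekindDomain Finset Pool.Agent.H691R3 Pool.Agent.TH876.Loc
open Pool.Agent.TH876.KR (log_nn)

/-- weighted count of classes -/
theorem class_sum {X U : Type*} [DecidableEq U] (E : Finset X) (D : X → Finset U) (f : U → ℝ)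
    (hf0 : ∀ a, 0 ≤ f a) (F0 : ℝ) (hf : ∀ s : Finset U, ∑ a ∈ s, f a ≤ F0) (G : ℝ) (hG : 0 ≤ G)
    (hclass : ∀ x ∈ E, ((E.filter (fun y => D y = D x)).card : ℝ) ≤ G * ∏ a ∈ D x, f a) :
    (E.card : ℝ) ≤ G * Real.exp F0 := by
  classical
  have h1 : (E.card : ℝ) = ∑ D0 ∈ E.image D, ((E.filter (fun y => D y = D0)).card : ℝ) := by
    exact_mod_cast Finset.card_eq_sum_card_image D E
  have h2 : ∀ D0 ∈ E.image D, ((E.filter (fun y => D y = D0)).card : ℝ) ≤
      G * ∏ a ∈ D0, f a := by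
    intro D0 hD0
    obtain ⟨x, hx, rfl⟩ := Finset.mem_image.mp hD0
    exact hclass x hx
  have h10 : ∑ D0 ∈ E.image D, ∏ a ∈ D0, f a ≤ Real.exp F0 := by
    set U0 := E.biUnion D with hU0
    calc ∑ D0 ∈ E.image D, ∏ a ∈ D0, f a ≤ ∑ D0 ∈ U0.powerset, ∏ a ∈ D0, f a := by
          refine Finset.sum_le_sum_of_subset_of_nonneg ?_ (fun t _ _ =>
            Finset.prod_nonneg fun a _ => hf0 a)
          intro D0 hD0
          obtain ⟨x, hx, rfl⟩ := Finset.mem_image.mp hD0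
          exact Finset.mem_powerset.mpr (Finset.subset_biUnion_of_mem D hx)
      _ = ∏ a ∈ U0, (1 + f a) := (Finset.prod_one_add _).symm
      _ ≤ ∏ a ∈ U0, Real.exp (f a) := by
          refine Finset.prod_le_prod (fun a _ => by linarith [hf0 a]) (fun a _ => ?_)
          linarith [Real.add_one_le_exp (f a)]
      _ = Real.exp (∑ a ∈ U0, f a) := (Real.exp_sum _ _).symm
      _ ≤ Real.exp F0 := Real.exp_le_exp.mpr (hf U0)
  calc (E.card : ℝ) = ∑ D0 ∈ E.image D, ((E.filter (fun y => D y = D0)).card : ℝ) := h1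
    _ ≤ ∑ D0 ∈ E.image D, G * ∏ a ∈ D0, f a := Finset.sum_le_sum h2
    _ = G * ∑ D0 ∈ E.image D, ∏ a ∈ D0, f a := by rw [Finset.mul_sum]
    _ ≤ G * Real.exp F0 := mul_le_mul_of_nonneg_left h10 hG

variable {K : Type} [Field K] [NumberField K]

theorem hr_le_hgt {x : K} (hx : Pt x) : hr (aff x) ≤ hgt x := by
  unfold hr hgt
  have h1 : ∑ᶠ v : HeightOneSpectrum (𝓞 K), Real.log (max (fv v (aff x).1) (fv v (aff x).2)) =
      ∑ v ∈ sp x, Real.log (max (fv v x) 1) := by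
    refine (finsum_congr fun v => ?_).trans (finsum_eq_sum_of_support_subset _ ?_)
    · show Real.log (max (fv v x) (fv v 1)) = _
      rw [map_one]
    · intro v hv
      by_contra h
      rw [Function.mem_support] at hv
      apply hv
      have h2 : fv v x = 1 := fv_L hx h 0
      show Real.log (max (fv v x) 1) = 0
      rw [h2, max_self, Real.log_one]
  rw [h1, sum_Spl]
  have key : ∀ v : Pl K, Real.log (max (av v x) 1) ≤ Real.log (M v x) := fun v =>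
    Real.log_le_log (lt_max_of_lt_right one_pos) (max_le_M v x)
  refine add_le_add (Finset.sum_le_sum fun w _ => ?_) (Finset.sum_le_sum fun v _ => ?_)
  · have e : max (w (aff x).1) (w (aff x).2) = max (av (Sum.inl w : Pl K) x) 1 := by
      show max (w x) (w 1) = max (w x) 1
      rw [map_one]
    rw [e]
    exact mul_le_mul_of_nonneg_left (key (Sum.inl w)) (Nat.cast_nonneg _)
  · have := key (Sum.inr v)
    show Real.log (max (fv v x) 1) ≤ 1 * Real.log (M (Sum.inr v) x)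
    rw [one_mul]
    exact this

theorem cost_nonneg (T : Finset (Pr K)) (a : Pl K × Fin 3 × ℕ) : 0 ≤ cost (Spl T) a := by
  unfold cost
  split_ifs
  · exact le_rfl
  · exact (Lu_pos _).le

theorem cost_le (T : Finset (Pr K)) {a : Pl K × Fin 3 × ℕ} (ha : thr (Spl T) a.1 ≤ a.2.2) :
    cost (Spl T) a ≤ wt a / 2 := by
  have hL := Lu_pos a.1
  unfold cost wt
  unfold thr at ha
  split_ifs at ha ⊢ with h2
  · have : (0 : ℝ) ≤ a.2.2 := Nat.cast_nonneg _
    positivity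
  · have : (2 : ℝ) ≤ a.2.2 := by exact_mod_cast ha
    nlinarith

/-- **the number of points with `rT T x ≤ L` and `3 hgt x - rT T x ≥ σ`**, apart from the
exceptional ones -/
theorem upper (T : Finset (Pr K)) (β : ℝ) (hβ0 : 0 ≤ β) (hβ : β < 1 / 3) : ∃ C : ℝ, 0 < C ∧
    ∀ (L σ : ℝ) (E : Finset K), 0 ≤ L →
      (∀ x ∈ E, Pt x ∧ rT T x ≤ L ∧ hgt x ≤ 2 / 5 * rT T x ∧ σ ≤ 3 * hgt x - rT T x) →
      (E.card : ℝ) ≤ C * Real.exp (2 / 3 * L - β * σ) := by
  classical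
  obtain ⟨c, hc⟩ : ∃ c, c = ∑ v ∈ Spl T, spc v := ⟨_, rfl⟩
  have hc0 : 0 ≤ c := by
    rw [hc]; exact Finset.sum_nonneg fun v _ => spc_nonneg v
  have hη : 0 < (1 / 3 - β) / 2 := by linarith
  obtain ⟨F0, hF0⟩ := weights_bounded (Spl T) 3 hη
  obtain ⟨C3, hC3⟩ : ∃ C3, C3 = 32 * Real.exp (3 * lossK K) := ⟨_, rfl⟩
  have hC30 : 0 < C3 := by rw [hC3]; positivity
  obtain ⟨C4, hC4⟩ : ∃ C4, C4 = C3 * ((Real.exp (2 / 3 * c) + 1) *
    Real.exp (2 / 3 * c + β * c)) := ⟨_, rfl⟩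
  have hC40 : 0 < C4 := by rw [hC4]; positivity
  refine ⟨C4 * Real.exp F0, by positivity, fun L σ E hL hE => ?_⟩
  have hex : ∀ x : K, ∃ B : Finset (Pl K × Fin 3 × ℕ), x ∈ E →
      (Set.InjOn (fun a : Pl K × Fin 3 × ℕ => a.1) B ∧
        (∀ a ∈ B, wt a ≤ lam a.1 (aff x) (al K a.2.1)) ∧
        (∀ a ∈ B, thr (Spl T) a.1 ≤ a.2.2) ∧
        |(3 * hgt x - rT T x) - ∑ a ∈ B, (wt a - cost (Spl T) a)| ≤ c) := by
    intro x
    by_cases hx : x ∈ E
    · obtain ⟨B, h1, h2, h3, h4⟩ := blocks T (hE x hx).1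
      exact ⟨B, fun _ => ⟨h1, h2, h3, by rw [hc]; exact h4⟩⟩
    · exact ⟨∅, fun h => absurd h hx⟩
  choose B hB using hex
  have hmain := class_sum E B (fwt (Spl T) ((1 / 3 - β) / 2)) (fwt_nonneg (Spl T) _) F0 hF0
    (C4 * Real.exp (2 / 3 * L - β * σ)) (by positivity) ?_
  · refine hmain.trans (le_of_eq (by ring))
  intro x hx
  obtain ⟨hPt, hrL, hh, hσ⟩ := hE x hx
  obtain ⟨b1, b2, b3, b4⟩ := hB x hx
  obtain ⟨Ex, hEx⟩ : ∃ Ex, Ex = ∑ a ∈ B x, (wt a - cost (Spl T) a) := ⟨_, rfl⟩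
  obtain ⟨W, hW⟩ : ∃ W, W = ∑ a ∈ B x, wt a := ⟨_, rfl⟩
  obtain ⟨Ct, hCt⟩ : ∃ Ct, Ct = ∑ a ∈ B x, cost (Spl T) a := ⟨_, rfl⟩
  have hExW : Ex = W - Ct := by rw [hEx, hW, hCt, Finset.sum_sub_distrib]
  have hCt0 : 0 ≤ Ct := by rw [hCt]; exact Finset.sum_nonneg fun a _ => cost_nonneg T a
  have hCtW : Ct ≤ W / 2 := by
    rw [hCt, hW, Finset.sum_div]
    exact Finset.sum_le_sum fun a ha => cost_le T (b3 a ha)
  rw [← hEx] at b4
  rw [abs_le] at b4
  have hcl := class_bound (al K) al_ne (B x) b1 (E.filter (fun y => B y = B x))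
    ((L + Ex + c) / 3) ?_ ?_ ?_
  rotate_left
  · intro y hy i
    exact al_off (hE y (Finset.mem_filter.mp hy).1).1 i
  · intro y hy
    rw [Finset.mem_filter] at hy
    obtain ⟨q1, q2, q3, q4⟩ := hE y hy.1
    have q5 := (hB y hy.1).2.2.2
    rw [hy.2, ← hEx, abs_le] at q5
    have q6 := hr_le_hgt q1
    rw [le_div_iff₀ (by norm_num)]
    linarith [q5.1, q5.2]
  · intro y hy a ha
    rw [Finset.mem_filter] at hy
    rw [← hy.2] at ha
    exact (hB y hy.1).2.1 a ha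
  have hWs : ∑ a ∈ B x, (a.2.2 : ℝ) * Lu a.1 = W := by rw [hW]; rfl
  rw [hWs, ← hC3] at hcl
  -- the exponent
  obtain ⟨u, hu⟩ : ∃ u, u = 2 * ((L + Ex + c) / 3) - W := ⟨_, rfl⟩
  rw [← hu] at hcl
  have hu1 : -(2 / 3 * c) ≤ u := by
    rw [hu, hExW]
    rw [hExW] at b4
    have := b4.1
    nlinarith
  have hu2 : u = 2 / 3 * L + 2 / 3 * c - (Ex / 3 + Ct) := by
    rw [hu, hExW]; ring
  have h1 : 1 + Real.exp u ≤ (Real.exp (2 / 3 * c) + 1) * Real.exp u := by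
    have h2 : 1 ≤ Real.exp (2 / 3 * c) * Real.exp u := by
      rw [← Real.exp_add]
      exact Real.one_le_exp (by linarith)
    linarith
  have h3 : ∏ a ∈ B x, Real.exp (-(cost (Spl T) a) - (1 / 3 - β) / 2 * wt a) ≤
      ∏ a ∈ B x, fwt (Spl T) ((1 / 3 - β) / 2) a := by
    refine Finset.prod_le_prod (fun a _ => (Real.exp_pos _).le) fun a ha => ?_
    unfold fwt
    rw [if_pos (b3 a ha)]
  rw [← Real.exp_sum, Finset.sum_sub_distrib, Finset.sum_neg_distrib, ← Finset.mul_sum, ← hCt,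
    ← hW] at h3
  have h4 : Real.exp u ≤ Real.exp (2 / 3 * c + β * c) * Real.exp (2 / 3 * L - β * σ) *
      Real.exp (-Ct - (1 / 3 - β) / 2 * W) := by
    rw [← Real.exp_add, ← Real.exp_add]
    refine Real.exp_le_exp.mpr ?_
    have h5 : 0 ≤ β * (Ex + c - σ) := mul_nonneg hβ0 (by linarith [b4.2])
    have h6 : 0 ≤ (1 / 3 - β) * (Ex - W / 2) := mul_nonneg (by linarith) (by linarith)
    rw [hu2]
    nlinarith
  calc ((E.filter (fun y => B y = B x)).card : ℝ) ≤ C3 * (1 + Real.exp u) := hcl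
    _ ≤ C3 * ((Real.exp (2 / 3 * c) + 1) * (Real.exp (2 / 3 * c + β * c) *
        Real.exp (2 / 3 * L - β * σ) * Real.exp (-Ct - (1 / 3 - β) / 2 * W))) := by
        refine mul_le_mul_of_nonneg_left (h1.trans ?_) hC30.le
        exact mul_le_mul_of_nonneg_left h4 (by positivity)
    _ = C4 * Real.exp (2 / 3 * L - β * σ) * Real.exp (-Ct - (1 / 3 - β) / 2 * W) := by
        rw [hC4]; ring
    _ ≤ C4 * Real.exp (2 / 3 * L - β * σ) * ∏ a ∈ B x, fwt (Spl T) ((1 / 3 - β) / 2) a :=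
        mul_le_mul_of_nonneg_left h3 (by positivity)

end Pool.Agent.V8H4.TL
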