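import Mathlib
import Pool.Agent.V8H4.TL.Upper
import Pool.Agent.V8H4.TL.Lower

/-!
# The lower bound for the number of points with given excess
-/

set_option autoImplicit false
set_option linter.unusedSectionVars false

namespace Pool.Agent.V8H4.TL

open NumberField IsDedekindDomain Finset Pool.Agent.H691R3 Pool.Agent.TH876.Loc
open Pool.Agent.TH876.KR (side mem_side mem_sp_iff gd_eq df_int log_Nv_pos')

variable {K : Type} [Field K] [NumberField K]

theorem hgt_le_hr {x : K} (hx : Pt x) : hgt x ≤ hr (aff x) + Module.finrank ℚ K * Real.log 2 := by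
  have h1 : ∑ᶠ v : HeightOneSpectrum (𝓞 K), Real.log (max (fv v (aff x).1) (fv v (aff x).2)) =
      ∑ v ∈ sp x, Real.log (max (fv v x) 1) := by
    refine (finsum_congr fun v => ?_).trans (finsum_eq_sum_of_support_subset _ ?_)
    · show Real.log (max (fv v x) (fv v 1)) = _
      rw [map_one]
    · intro v hv
      by_contra h
      rw [Function.mem_support] at hv
      apply hv
      have h2 : fv v x = 1 := fv_L hx h 0
      show Real.log (max (fv v x) 1) = 0
      rw [h2, max_self, Real.log_one]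
  have h2 : hr (aff x) = ∑ v ∈ Spl (sp x), mt v * Real.log (max (av v x) 1) := by
    unfold hr
    rw [h1, sum_Spl]
    congr 1
    · refine Finset.sum_congr rfl fun w _ => ?_
      have e : max (w (aff x).1) (w (aff x).2) = max (av (Sum.inl w : Pl K) x) 1 := by
        show max (w x) (w 1) = max (w x) 1
        rw [map_one]
      rw [e]
      rfl
    · refine Finset.sum_congr rfl fun v _ => ?_
      show _ = 1 * _
      rw [one_mul]
      rfl
  have h3 : (Module.finrank ℚ K : ℝ) * Real.log 2 = ∑ v ∈ Spl (sp x), mt v * Real.log (cv v) := by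
    rw [sum_cv]
    congr 1
    exact (sum_mult K).symm
  rw [h2, h3, ← Finset.sum_add_distrib]
  unfold hgt
  refine Finset.sum_le_sum fun v _ => ?_
  unfold mx
  rw [← mul_add]
  refine mul_le_mul_of_nonneg_left ?_ (mt_pos v).le
  have h4 := Real.log_le_log (lt_of_lt_of_le one_pos (one_le_M v x)) (M_le_max v x)
  rw [Real.log_mul (by linarith [one_le_cv v]) (lt_max_of_lt_right one_pos).ne'] at h4
  linarith

theorem excess_ge (T : Finset (Pr K)) {x : K} (hx : Pt x) (w0 : InfinitePlace K) :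
    -(w0.mult * Real.log (w0 x)) ≤ 3 * hgt x - rT T x := by
  classical
  have h1 := sum_gd hx (Finset.Subset.refl (sp x))
  rw [sum_Spl] at h1
  have h2 : rT T x ≤ ∑ v ∈ sp x, gd (Sum.inr v : Pl K) x := by
    unfold rT
    refine (Finset.sum_le_sum_of_subset_of_nonneg Finset.sdiff_subset fun v _ _ =>
      (log_Nv_pos' v).le).trans (Finset.sum_le_sum fun v hv => ?_)
    obtain ⟨i, hi⟩ := (mem_sp_iff hx v).1 hv
    rw [gd_eq hx hi]
    obtain ⟨m, hm⟩ := df_int hx v i
    have h3 := (mem_side hx).1 hi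
    rw [hm] at h3 ⊢
    have hm1 : 1 ≤ m := by
      rcases Nat.eq_zero_or_pos m with h0 | h0
      · rw [h0, Nat.cast_zero, zero_mul] at h3
        exact absurd h3 (lt_irrefl _)
      · exact h0
    have hm2 : (1 : ℝ) ≤ m := by exact_mod_cast hm1
    exact le_mul_of_one_le_left (log_Nv_pos' v).le hm2
  have h3 : gd (Sum.inl w0 : Pl K) x ≤ ∑ w : InfinitePlace K, gd (Sum.inl w : Pl K) x :=
    Finset.single_le_sum (f := fun w : InfinitePlace K => gd (Sum.inl w : Pl K) x)
      (fun w _ => gd_nonneg _ hx) (Finset.mem_univ w0)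
  have h4 := df_le_gd (Sum.inl w0 : Pl K) 0 hx
  have h5 : df (Sum.inl w0 : Pl K) 0 x = w0.mult * Real.log (M (Sum.inl w0 : Pl K) x) -
      w0.mult * Real.log (w0 x) := rfl
  have h6 : 0 ≤ (w0.mult : ℝ) * Real.log (M (Sum.inl w0 : Pl K) x) :=
    mul_nonneg (Nat.cast_nonneg _) (Real.log_nonneg (one_le_M _ x))
  linarith

/-- **many points with given excess** -/
theorem lower_aff (K : Type) [Field K] [NumberField K] : ∃ c C6 : ℝ, 0 < c ∧ 0 ≤ C6 ∧
    ∀ (T : Finset (Pr K)) (L t : ℝ), 0 ≤ t → 2 * t + C6 ≤ L →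
    ∃ E : Finset K, (∀ x ∈ E, Pt x ∧ rT T x ≤ L ∧ t ≤ 3 * hgt x - rT T x) ∧
      c * Real.exp (2 / 3 * L - t / 3) ≤ (E.card : ℝ) := by
  classical
  obtain ⟨w0⟩ : Nonempty (InfinitePlace K) := inferInstance
  obtain ⟨c, C0, C1, hc, hC0, hC1, h⟩ := many_close (K := K) w0
  obtain ⟨d, hd⟩ : ∃ d, d = Module.finrank ℚ K := ⟨_, rfl⟩
  have hdn : 0 < d := by rw [hd]; exact Module.finrank_pos
  have hd0 : (0 : ℝ) < d := by exact_mod_cast hdn
  rw [← hd] at h
  obtain ⟨C5, hC5⟩ : ∃ C5, C5 = 2 * C1 := ⟨_, rfl⟩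
  have hC50 : 0 < C5 := by rw [hC5]; linarith
  refine ⟨c / ((2 * C5) ^ d) ^ 2, 3 * |Real.log (C0 * (2 * C5) ^ d)| + 3 * d * |Real.log C5|,
    by positivity, by positivity, fun T L t ht hL => ?_⟩
  have a1 := abs_nonneg (Real.log (C0 * (2 * C5) ^ d))
  have a2 := abs_nonneg (Real.log C5)
  have a2' : 0 ≤ 3 * d * |Real.log C5| := by positivity
  obtain ⟨U, hU⟩ : ∃ U, U = Real.exp ((L + t) / (3 * d)) := ⟨_, rfl⟩
  have hU0 : 0 < U := by rw [hU]; exact Real.exp_pos _
  have hUd : U ^ d = Real.exp ((L + t) / 3) := by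
    rw [hU, ← Real.exp_nat_mul]
    congr 1
    field_simp
  have hlogU : Real.log U = (L + t) / (3 * d) := by rw [hU, Real.log_exp]
  have hUC : C5 ≤ U := by
    rw [← Real.log_le_log_iff hC50 hU0, hlogU, le_div_iff₀ (by positivity)]
    have : Real.log C5 * (3 * d) ≤ 3 * d * |Real.log C5| := by
      rw [mul_comm]
      exact mul_le_mul_of_nonneg_left (le_abs_self _) (by positivity)
    linarith
  have hU1 : 1 ≤ U / C5 := by rwa [le_div_iff₀ hC50, one_mul]
  obtain ⟨n, hn⟩ : ∃ n : ℕ, n = ⌊U / C5⌋₊ := ⟨_, rfl⟩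
  have hn1 : 1 ≤ n := by rw [hn]; exact (Nat.one_le_floor_iff _).2 hU1
  have hn1' : (1 : ℝ) ≤ n := by exact_mod_cast hn1
  have hnle : (n : ℝ) ≤ U / C5 := by rw [hn]; exact Nat.floor_le (by positivity)
  have hnge : U / (2 * C5) ≤ n := by
    have h1 : U / C5 < n + 1 := by rw [hn]; exact Nat.lt_floor_add_one _
    have h3 : U / (2 * C5) = U / C5 / 2 := by field_simp
    rw [h3]
    linarith
  have hnd : Real.exp ((L + t) / 3) / (2 * C5) ^ d ≤ (n : ℝ) ^ d := by
    rw [← hUd, ← div_pow]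
    exact pow_le_pow_left₀ (by positivity) hnge _
  have hcond : C0 * Real.exp t ≤ (n : ℝ) ^ d := by
    refine le_trans ?_ hnd
    rw [le_div_iff₀ (by positivity)]
    have h1 : C0 * Real.exp t * (2 * C5) ^ d = (C0 * (2 * C5) ^ d) * Real.exp t := by ring
    rw [h1, ← Real.log_le_log_iff (by positivity) (Real.exp_pos _), Real.log_exp,
      Real.log_mul (by positivity) (Real.exp_pos _).ne', Real.log_exp]
    have h2 := le_abs_self (Real.log (C0 * (2 * C5) ^ d))
    linarith
  obtain ⟨E, hE, hEc⟩ := h n hn1 t ht hcond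
  refine ⟨E, fun x hx => ?_, ?_⟩
  · obtain ⟨h1, h2, h3, h4⟩ := hE x hx
    have hPt : Pt x := by
      refine ⟨h1, fun h0 => ?_⟩
      have h5 : x = -1 := by linear_combination h0
      have h6 := h2 w0
      rw [h5] at h6
      have h7 : w0 (-1 : K) = 1 := by
        have h8 : w0.1 (-1 : K) = w0.1 1 := w0.1.map_neg _
        have h9 : w0.1 (1 : K) = 1 := map_one _
        exact h8.trans h9
      rw [h7] at h6
      norm_num at h6
    have h5 := hgt_le_hr hPt
    rw [← hd] at h5
    have h6 : (d : ℝ) * Real.log (C1 * n) + d * Real.log 2 ≤ (L + t) / 3 := by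
      have h7 : (L + t) / 3 = d * Real.log U := by rw [hlogU]; field_simp
      rw [h7, ← mul_add]
      refine mul_le_mul_of_nonneg_left ?_ hd0.le
      rw [← Real.log_mul (by positivity) (by norm_num)]
      refine Real.log_le_log (by positivity) ?_
      rw [le_div_iff₀ hC50] at hnle
      rw [hC5] at hnle
      linarith
    have h7 := excess_ge T hPt w0
    have h8 := excess_ge ∅ hPt w0
    refine ⟨hPt, ?_, by linarith⟩
    linarith
  · refine le_trans ?_ hEc
    have h1 : c / ((2 * C5) ^ d) ^ 2 * Real.exp (2 / 3 * L - t / 3) =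
        c * (Real.exp ((L + t) / 3) / (2 * C5) ^ d) ^ 2 * Real.exp (-t) := by
      have h2 : Real.exp (2 / 3 * L - t / 3) = Real.exp ((L + t) / 3) ^ 2 * Real.exp (-t) := by
        rw [← Real.exp_nat_mul, ← Real.exp_add]; congr 1; push_cast; ring
      rw [h2]
      field_simp
    rw [h1]
    refine mul_le_mul_of_nonneg_right ?_ (Real.exp_pos _).le
    refine mul_le_mul_of_nonneg_left ?_ hc.le
    exact pow_le_pow_left₀ (by positivity) hnd 2

end Pool.Agent.V8H4.TL
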