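import Mathlib
import Pool.Agent.V8H4.TL.LowerB
import Pool.Agent.Y728.AK.Final

/-!
# From the affine coordinate to the points of the plane
-/

set_option autoImplicit false
set_option linter.unusedSectionVars false

namespace Pool.Agent.V8H4.TL

open NumberField IsDedekindDomain Finset Pool.Agent.H691R3 Pool.Agent.TH876.Loc
open Pool.Agent.Y728 (radT PointsT exp_radT)
open Pool.Agent.Y728.AK (height3 height3_eq radT_eq exc_aff almost_allK)

variable {K : Type} [Field K] [NumberField K]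

/-- the points with `exp rad_T ≤ X` and `h ≥ rad_T / 3 + f (rad_T)` -/
def AboveF (T : Set (HeightOneSpectrum (𝓞 K))) (f : ℝ → ℝ) (X : ℝ) :
    Set (Projectivization K (Fin 3 → K)) :=
  {P | ∃ (x : Fin 3 → K) (hx : x ≠ 0), P = Projectivization.mk K x hx ∧ x 0 + x 1 + x 2 = 0 ∧
    x 0 * x 1 * x 2 ≠ 0 ∧ Real.exp (radT T x) ≤ X ∧ radT T x / 3 + f (radT T x) ≤ height3 x}

/-- lower bound for a set of points from a set of affine coordinates -/
theorem lower_gen (S : Set (Projectivization K (Fin 3 → K))) (hS : S.Finite) (F : Finset K)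
    (hF : ∀ z ∈ F, ∃ (x : Fin 3 → K) (hx : x ≠ 0), x = ![z, 1, -z - 1] ∧
      Projectivization.mk K x hx ∈ S) : (F.card : ℝ) ≤ (S.ncard : ℝ) := by
  classical
  have hv : ∀ z : K, (![z, 1, -z - 1] : Fin 3 → K) ≠ 0 := by
    intro z h
    have := congrFun h 1
    simp at this
  obtain ⟨f, hf⟩ : ∃ f : K → Projectivization K (Fin 3 → K),
      f = fun z => Projectivization.mk K ![z, 1, -z - 1] (hv z) := ⟨_, rfl⟩
  have hinj : Function.Injective f := by
    intro z z' h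
    rw [hf] at h
    simp only at h
    rw [Projectivization.mk_eq_mk_iff'] at h
    obtain ⟨a, ha⟩ := h
    have h1 := congrFun ha 1
    have h0 := congrFun ha 0
    simp at h1 h0
    rw [h1, one_mul] at h0
    exact h0.symm
  have hsub : f '' (F : Set K) ⊆ S := by
    rintro P ⟨z, hz, rfl⟩
    obtain ⟨x, hx, rfl, h⟩ := hF z hz
    rw [hf]
    exact h
  have h3 : (f '' (F : Set K)).ncard ≤ S.ncard := Set.ncard_le_ncard hsub hS
  rw [Set.ncard_image_of_injective _ hinj, Set.ncard_coe_finset] at h3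
  exact_mod_cast h3

theorem vec_facts {z : K} (hz : Pt z) : (![z, 1, -z - 1] : Fin 3 → K) ≠ 0 ∧
    (![z, 1, -z - 1] : Fin 3 → K) 0 + (![z, 1, -z - 1] : Fin 3 → K) 1 +
      (![z, 1, -z - 1] : Fin 3 → K) 2 = 0 ∧
    (![z, 1, -z - 1] : Fin 3 → K) 0 * (![z, 1, -z - 1] : Fin 3 → K) 1 *
      (![z, 1, -z - 1] : Fin 3 → K) 2 ≠ 0 ∧
    (![z, 1, -z - 1] : Fin 3 → K) 0 / (![z, 1, -z - 1] : Fin 3 → K) 1 = z := by
  refine ⟨?_, ?_, ?_, ?_⟩
  · intro h
    have := congrFun h 1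
    simp at this
  · show z + 1 + (-z - 1) = 0
    ring
  · show z * 1 * (-z - 1) ≠ 0
    refine mul_ne_zero (mul_ne_zero hz.1 one_ne_zero) ?_
    intro h
    apply hz.2
    linear_combination -h
  · show z / 1 = z
    rw [div_one]

open Classical in
/-- **the upper bound** -/
theorem above_upper (K : Type) [Field K] [NumberField K] (T : Set (HeightOneSpectrum (𝓞 K)))
    (hT : T.Finite) (β : ℝ) (hβ : β < Module.finrank ℚ K) :
    ∃ C ν : ℝ, 0 < C ∧ 0 < ν ∧ ∀ X s : ℝ, 1 ≤ X → 0 ≤ s →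
      (AboveF T (fun _ => s) X).Finite ∧
      ((AboveF T (fun _ => s) X).ncard : ℝ) ≤
        C * (Real.exp (-(β * s)) + X ^ (-ν)) * X ^ ((Module.finrank ℚ K : ℝ) * (2 / 3)) := by
  obtain ⟨T', rfl⟩ : ∃ T' : Finset (Pr K), T = (T' : Set (Pr K)) := ⟨hT.toFinset, by simp⟩
  obtain ⟨d, hd⟩ : ∃ d : ℝ, d = (Module.finrank ℚ K : ℝ) := ⟨_, rfl⟩
  have hdpos : 0 < d := by
    rw [hd]
    exact_mod_cast Module.finrank_pos
  rw [← hd] at hβ ⊢
  obtain ⟨b, hb⟩ : ∃ b, b = max β 0 / (3 * d) := ⟨_, rfl⟩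
  have hb0 : 0 ≤ b := by rw [hb]; positivity
  have hb1 : b < 1 / 3 := by
    rw [hb, div_lt_div_iff₀ (by positivity) (by norm_num)]
    have : max β 0 < d := max_lt hβ hdpos
    linarith
  obtain ⟨ν, hν, C1, hC1, h1⟩ := exc_aff K (almost_allK K) T' (M := 2 / 5) (by norm_num)
  obtain ⟨C2, hC2, h2⟩ := upper T' b hb0 hb1
  refine ⟨C1 + C2, d * ν, by positivity, by positivity, fun X s hX hs => ?_⟩
  have hX0 : 0 < X := by linarith
  have hlogX : 0 ≤ Real.log X := Real.log_nonneg hX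
  refine Pool.Agent.TH876.Loc.transfer _ (fun x => nn (sp x \ T') ≤ X ^ d ∧
      Real.log (nn (sp x \ T')) / 3 + d * s ≤ hgt x) _ (by positivity) ?_ ?_
  · rintro P ⟨x, hx, a1, a2, a3, a4, a5⟩
    refine ⟨x, hx, a1, a2, a3, ?_, ?_⟩
    · rw [← exp_radT T' a2 a3, ← hd, mul_comm d, Real.exp_mul]
      exact Real.rpow_le_rpow (Real.exp_pos _).le a4 hdpos.le
    · rw [← radT_eq T' a2 a3, ← height3_eq a2 a3, ← hd]
      have := mul_le_mul_of_nonneg_left a5 hdpos.le
      simp only at this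
      linarith
  · intro E hE
    obtain ⟨E1, hE1⟩ : ∃ E1, E1 = E.filter fun x => 2 / 5 * Real.log (nn (sp x \ T')) ≤ hgt x :=
      ⟨_, rfl⟩
    obtain ⟨E2, hE2⟩ : ∃ E2, E2 = E.filter fun x => ¬ 2 / 5 * Real.log (nn (sp x \ T')) ≤ hgt x :=
      ⟨_, rfl⟩
    have hcard : (E.card : ℝ) = E1.card + E2.card := by
      rw [hE1, hE2]
      exact_mod_cast (Finset.card_filter_add_card_filter_not _).symm
    have k1 := h1 (X ^ d) (Real.one_le_rpow hX hdpos.le) E1 (fun x hx => by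
      rw [hE1, Finset.mem_filter] at hx
      exact ⟨(hE x hx.1).1, (hE x hx.1).2.1, hx.2⟩)
    have k2 := h2 (d * Real.log X) (3 * (d * s)) E2 (by positivity) (fun x hx => by
      rw [hE2, Finset.mem_filter, not_le] at hx
      obtain ⟨q1, q2, q3⟩ := hE x hx.1
      rw [rT_eq]
      refine ⟨q1, ?_, hx.2.le, by linarith⟩
      rw [← Real.log_rpow hX0]
      exact Real.log_le_log (nn_pos _) q2)
    have e1 : (X ^ d) ^ (2 / 3 - ν) = X ^ (-(d * ν)) * X ^ (d * (2 / 3)) := by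
      rw [← Real.rpow_mul hX0.le, ← Real.rpow_add hX0]
      congr 1
      ring
    have e2 : Real.exp (2 / 3 * (d * Real.log X) - b * (3 * (d * s))) ≤
        Real.exp (-(β * s)) * X ^ (d * (2 / 3)) := by
      rw [Real.rpow_def_of_pos hX0, ← Real.exp_add]
      refine Real.exp_le_exp.mpr ?_
      have e3 : b * (3 * (d * s)) = max β 0 * s := by rw [hb]; field_simp
      have e4 : β * s ≤ max β 0 * s := mul_le_mul_of_nonneg_right (le_max_left _ _) hs
      rw [e3]
      linarith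
    rw [e1] at k1
    have k3 := k2.trans (mul_le_mul_of_nonneg_left e2 hC2.le)
    have hp : 0 < X ^ (d * (2 / 3)) := Real.rpow_pos_of_pos hX0 _
    have hq : 0 < X ^ (-(d * ν)) := Real.rpow_pos_of_pos hX0 _
    have hr := Real.exp_pos (-(β * s))
    rw [hcard]
    calc (E1.card : ℝ) + E2.card ≤ C1 * (X ^ (-(d * ν)) * X ^ (d * (2 / 3))) +
          C2 * (Real.exp (-(β * s)) * X ^ (d * (2 / 3))) := add_le_add k1 k3
      _ ≤ C1 * (X ^ (-(d * ν)) * X ^ (d * (2 / 3))) +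
          C2 * (Real.exp (-(β * s)) * X ^ (d * (2 / 3))) +
          (C1 * (Real.exp (-(β * s)) * X ^ (d * (2 / 3))) +
          C2 * (X ^ (-(d * ν)) * X ^ (d * (2 / 3)))) := le_add_of_nonneg_right (by positivity)
      _ = _ := by ring

open Classical in
/-- **the lower bound** -/
theorem above_lower (K : Type) [Field K] [NumberField K] (T : Set (HeightOneSpectrum (𝓞 K)))
    (hT : T.Finite) : ∃ c X₀ : ℝ, 0 < c ∧ 1 ≤ X₀ ∧ ∀ X s : ℝ, X₀ ≤ X → 0 ≤ s →
      s ≤ Real.log X / 7 →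
      c * Real.exp (-((Module.finrank ℚ K : ℝ) * s)) * X ^ ((Module.finrank ℚ K : ℝ) * (2 / 3)) ≤
        ((AboveF T (fun _ => s) X).ncard : ℝ) := by
  obtain ⟨T', rfl⟩ : ∃ T' : Finset (Pr K), T = (T' : Set (Pr K)) := ⟨hT.toFinset, by simp⟩
  obtain ⟨C, ν, hC, hν, hfin⟩ := above_upper K (T' : Set (Pr K)) hT 0
    (by exact_mod_cast Module.finrank_pos)
  obtain ⟨c, C6, hc, hC6, h⟩ := lower_aff K
  obtain ⟨d, hd⟩ : ∃ d : ℝ, d = (Module.finrank ℚ K : ℝ) := ⟨_, rfl⟩
  have hdpos : 0 < d := by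
    rw [hd]
    exact_mod_cast Module.finrank_pos
  have hd1 : 1 ≤ d := by
    rw [hd]
    exact_mod_cast Module.finrank_pos
  rw [← hd]
  refine ⟨c, Real.exp (7 * C6), hc, Real.one_le_exp (by positivity), fun X s hX hs hsX => ?_⟩
  have hX0 : 0 < X := lt_of_lt_of_le (Real.exp_pos _) hX
  have hlogX : 7 * C6 ≤ Real.log X := (Real.le_log_iff_exp_le hX0).2 hX
  have hX1 : 1 ≤ X := (Real.one_le_exp (by positivity)).trans hX
  have hcond : 2 * (3 * (d * s)) + C6 ≤ d * Real.log X := by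
    have h1 : d * s ≤ d * (Real.log X / 7) := mul_le_mul_of_nonneg_left hsX hdpos.le
    have h2 : 1 * (7 * C6) ≤ d * Real.log X :=
      mul_le_mul hd1 hlogX (by positivity) hdpos.le
    linarith
  obtain ⟨E, hE, hEc⟩ := h T' (d * Real.log X) (3 * (d * s)) (by positivity) hcond
  refine le_trans (le_of_eq ?_) (hEc.trans (lower_gen _ (hfin X s hX1 hs).1 E ?_))
  · rw [Real.rpow_def_of_pos hX0, mul_assoc, ← Real.exp_add]
    congr 2
    ring
  · intro z hz
    obtain ⟨h1, h2, h3⟩ := hE z hz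
    obtain ⟨v0, v1, v2, v3⟩ := vec_facts h1
    refine ⟨_, v0, rfl, _, v0, rfl, v1, v2, ?_, ?_⟩
    · have a1 := radT_eq T' v1 v2
      rw [v3, ← hd, ← rT_eq] at a1
      rw [← Real.le_log_iff_exp_le hX0]
      refine le_of_mul_le_mul_left ?_ hdpos
      rw [a1]
      exact h2
    · have a1 := radT_eq T' v1 v2
      have a2 := height3_eq v1 v2
      rw [v3, ← hd, ← rT_eq] at a1
      rw [v3, ← hd] at a2
      refine le_of_mul_le_mul_left ?_ hdpos
      simp only
      rw [a2, mul_add, ← mul_div_assoc, a1]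
      linarith

/-- the height is at least a third of the radical -/
theorem points_eq (T : Set (Pr K)) (hT : T.Finite) (X : ℝ) :
    PointsT T X = AboveF T (fun _ => 0) X := by
  rw [← Pool.Agent.Y728.AK.exc_small T hT (M := 1 / 3) le_rfl X]
  ext P
  constructor
  · rintro ⟨x, hx, h1, h2, h3, h4, h5⟩
    exact ⟨x, hx, h1, h2, h3, h4, by simp only; linarith⟩
  · rintro ⟨x, hx, h1, h2, h3, h4, h5⟩
    exact ⟨x, hx, h1, h2, h3, h4, by simp only at h5; linarith⟩

open Filter Topology in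
/-- almost all points are not above `rad / 3 + ψ (rad)` -/
theorem above_psi (K : Type) [Field K] [NumberField K] (T : Set (HeightOneSpectrum (𝓞 K)))
    (hT : T.Finite) (ψ : ℝ → ℝ) (hψ : Tendsto ψ atTop atTop) :
    Tendsto (fun X : ℝ => ((AboveF T ψ X).ncard : ℝ) / ((PointsT T X).ncard : ℝ)) atTop (𝓝 0) := by
  obtain ⟨d, hd⟩ : ∃ d : ℝ, d = (Module.finrank ℚ K : ℝ) := ⟨_, rfl⟩
  have hdpos : 0 < d := by
    rw [hd]
    exact_mod_cast Module.finrank_pos
  obtain ⟨C, ν, hC, hν, hup⟩ := above_upper K T hT (d / 2) (by rw [← hd]; linarith)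
  obtain ⟨c, X0, hc, hX0, hlo⟩ := above_lower K T hT
  rw [← hd] at hup hlo
  rw [Metric.tendsto_atTop]
  intro ε hε
  -- the level
  obtain ⟨s, hs0, hs⟩ : ∃ s : ℝ, 0 ≤ s ∧ C * Real.exp (-(d / 2 * s)) ≤ ε * c / 4 := by
    obtain ⟨s, hs⟩ : ∃ s : ℝ, s = max 0 (-(2 / d) * Real.log (ε * c / 4 / C)) := ⟨_, rfl⟩
    refine ⟨s, by rw [hs]; exact le_max_left _ _, ?_⟩
    have h1 : -(2 / d) * Real.log (ε * c / 4 / C) ≤ s := by rw [hs]; exact le_max_right _ _
    have h2 : -(d / 2 * s) ≤ Real.log (ε * c / 4 / C) := by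
      have h3 := mul_le_mul_of_nonneg_left h1 (by positivity : 0 ≤ d / 2)
      have h4 : d / 2 * (-(2 / d) * Real.log (ε * c / 4 / C)) = -Real.log (ε * c / 4 / C) := by
        field_simp
      linarith
    have h3 : Real.exp (-(d / 2 * s)) ≤ ε * c / 4 / C := by
      rw [← Real.exp_log (by positivity : 0 < ε * c / 4 / C)]
      exact Real.exp_le_exp.mpr h2
    rw [le_div_iff₀ hC] at h3
    linarith
  obtain ⟨r0, hr0⟩ := (hψ.eventually_ge_atTop s).exists_forall_of_atTop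
  obtain ⟨X1, hX1⟩ : ∃ X1, X1 = max 1 (Real.exp r0) := ⟨_, rfl⟩
  have hX11 : 1 ≤ X1 := by rw [hX1]; exact le_max_left _ _
  -- growth
  have hgrow : Tendsto (fun X : ℝ => X ^ (d * (2 / 3))) atTop atTop :=
    tendsto_rpow_atTop (by positivity)
  have hdec : Tendsto (fun X : ℝ => X ^ (-ν)) atTop (𝓝 0) := tendsto_rpow_neg_atTop hν
  have ev1 := hgrow.eventually_ge_atTop (((PointsT T X1).ncard : ℝ) * (4 / (ε * c)))
  have ev2 := hdec.eventually_le_const (show (0 : ℝ) < ε * c / 8 / C by positivity)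
  obtain ⟨N, hN⟩ := ((ev1.and ev2).and (eventually_ge_atTop (max X0 1))).exists_forall_of_atTop
  refine ⟨N, fun X hX => ?_⟩
  obtain ⟨⟨g1, g2⟩, g3⟩ := hN X hX
  have hXX0 : X0 ≤ X := (le_max_left _ _).trans g3
  have hXX1 : 1 ≤ X := (le_max_right _ _).trans g3
  have hXpos : 0 < X := by linarith
  obtain ⟨Y, hY⟩ : ∃ Y, Y = X ^ (d * (2 / 3)) := ⟨_, rfl⟩
  have hYpos : 0 < Y := by rw [hY]; exact Real.rpow_pos_of_pos hXpos _
  have hpts : c * Y ≤ ((PointsT T X).ncard : ℝ) := by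
    have h1 := hlo X 0 hXX0 le_rfl (by have := Real.log_nonneg hXX1; positivity)
    rw [mul_zero, neg_zero, Real.exp_zero, mul_one, ← hY] at h1
    rw [points_eq T hT X]
    exact h1
  have hab : ((AboveF T ψ X).ncard : ℝ) ≤ ((PointsT T X1).ncard : ℝ) +
      C * (Real.exp (-(d / 2 * s)) + X ^ (-ν)) * Y := by
    have h1 : AboveF T ψ X ⊆ PointsT T X1 ∪ AboveF T (fun _ => s) X := by
      rintro P ⟨x, hx, a1, a2, a3, a4, a5⟩
      rcases le_or_gt r0 (radT T x) with h2 | h2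
      · right
        have h3 := hr0 _ h2
        exact ⟨x, hx, a1, a2, a3, a4, by simp only; linarith⟩
      · left
        refine ⟨x, hx, a1, a2, a3, ?_⟩
        rw [hX1]
        exact (Real.exp_le_exp.mpr h2.le).trans (le_max_right _ _)
    have f1 : (PointsT T X1).Finite := by
      rw [points_eq T hT X1]
      exact (hup X1 0 hX11 le_rfl).1
    have f2 := (hup X s hXX1 hs0).1
    have h2 := (Set.ncard_le_ncard h1 (f1.union f2)).trans (Set.ncard_union_le _ _)
    have h3 := (hup X s hXX1 hs0).2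
    rw [← hY] at h3
    have h4 : ((AboveF T ψ X).ncard : ℝ) ≤ ((PointsT T X1).ncard : ℝ) +
        ((AboveF T (fun _ => s) X).ncard : ℝ) := by exact_mod_cast h2
    linarith
  have hptspos : 0 < ((PointsT T X).ncard : ℝ) := lt_of_lt_of_le (by positivity) hpts
  rw [dist_zero_right, Real.norm_of_nonneg (by positivity), div_lt_iff₀ hptspos]
  rw [← hY] at g1
  have k1 : ((PointsT T X1).ncard : ℝ) ≤ ε * c / 4 * Y := by
    have := mul_le_mul_of_nonneg_left g1 (by positivity : 0 ≤ ε * c / 4)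
    have h5 : ε * c / 4 * (((PointsT T X1).ncard : ℝ) * (4 / (ε * c))) =
        ((PointsT T X1).ncard : ℝ) := by field_simp
    linarith
  have k2 : C * (Real.exp (-(d / 2 * s)) + X ^ (-ν)) ≤ ε * c / 4 + ε * c / 8 := by
    rw [mul_add]
    refine add_le_add hs ?_
    have := mul_le_mul_of_nonneg_left g2 hC.le
    have h5 : C * (ε * c / 8 / C) = ε * c / 8 := by field_simp
    linarith
  have k3 := mul_le_mul_of_nonneg_right k2 hYpos.le
  have k4 : ε * (c * Y) ≤ ε * ((PointsT T X).ncard : ℝ) := mul_le_mul_of_nonneg_left hpts hε.le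
  have k5 : 0 < ε * c * Y := by positivity
  linarith

end Pool.Agent.V8H4.TL
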